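import Pool.Agent.Tvb.Stmts

/-!
# Module Cov: every family has a labelling from a word
-/

set_option autoImplicit false

namespace Pool.Agent.Tvb

open scoped Classical

theorem cov_dt_add {k : ℕ} (χ g h : G k) : dt χ (g + h) = dt χ g + dt χ h := by
  unfold dt
  rw [← Finset.sum_add_distrib]
  refine Finset.sum_congr rfl fun j _ => ?_
  rw [Pi.add_apply, mul_add]

theorem cov_sg_add {k : ℕ} (χ g h : G k) : sg χ (g + h) = sg χ g * sg χ h := by
  have h01 : ∀ a : ZMod 2, a = 0 ∨ a = 1 := fun a => by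
    fin_cases a
    · exact Or.inl rfl
    · exact Or.inr rfl
  have h11 : (1 : ZMod 2) + 1 = 0 := rfl
  have h1 : (1 : ZMod 2) ≠ 0 := one_ne_zero
  unfold sg
  rw [cov_dt_add]
  rcases h01 (dt χ g) with ha | ha <;> rcases h01 (dt χ h) with hb | hb <;>
    simp [ha, hb, h11, h1]

theorem cov_sg_abs {k : ℕ} (χ g : G k) : |sg χ g| = 1 := by
  unfold sg
  split_ifs <;> simp

theorem cov_rho_add {k N : ℕ} (χ : Fin N → G k) (g h : G k) (v : Fin N → ℝ) :
    rho χ (g + h) v = rho χ g (rho χ h v) := by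
  funext c
  simp only [rho, cov_sg_add, mul_assoc]

theorem cov_rho_sub {k N : ℕ} (χ : Fin N → G k) (g : G k) (v w : Fin N → ℝ) :
    rho χ g v - rho χ g w = rho χ g (v - w) := by
  funext c
  simp only [rho, Pi.sub_apply, mul_sub]

theorem cov_rho_norm {k N : ℕ} (χ : Fin N → G k) (g : G k) (v : Fin N → ℝ) :
    ‖rho χ g v‖ ≤ ‖v‖ := by
  refine (pi_norm_le_iff_of_nonneg (norm_nonneg v)).mpr fun c => ?_
  simp only [rho, Real.norm_eq_abs, abs_mul, cov_sg_abs, one_mul]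
  exact norm_le_pi_norm v c

theorem cov_min {ι : Type} [Finite ι] (f : ι → ℝ) (hf : ∀ i, 0 < f i) :
    ∃ δ > 0, ∀ i, δ ≤ f i := by
  rcases isEmpty_or_nonempty ι with h | h
  · exact ⟨1, one_pos, fun i => h.elim i⟩
  · obtain ⟨i, hi⟩ := Finite.exists_min f
    exact ⟨f i, hf i, hi⟩

theorem tCov (hI : Stmt_Ind) (hG : Stmt_Gen) (hF : Stmt_Fin) (hC : Stmt_Clo) : Stmt_Cov := by
  intro k M _ χ hχ T κ
  by_contra hcon
  have h1 : ∀ p : (Fin (M + 1) → Fin k) × (Fin (M + 1) → Bool), ∃ δ : ℝ, 0 < δ ∧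
      (p.1 ∈ Wd χ → ∀ y' : Option (Fin (M + 1)) → Fin (M + 1) → ℝ,
        (∀ i, ‖y' i - rho χ (lab p.1 p.2 i + κ i) (T i)‖ < δ) →
        ¬ ∃ c : Option (Fin (M + 1)) → ℝ, (∀ i, 0 < c i) ∧ ∑ i, c i • y' i = 0) := by
    rintro ⟨w, ε⟩
    by_contra h
    have hw : w ∈ Wd χ := by
      by_contra hw
      exact h ⟨1, one_pos, fun h' => absurd h' hw⟩
    have h2 := hC (Option (Fin (M + 1))) (M + 1) (fun i => rho χ (lab w ε i + κ i) (T i)) (by
      intro δ hδ
      by_contra h3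
      refine h ⟨δ, hδ, fun _ y' hy' hc => h3 ⟨y', hy', hc⟩⟩)
    exact hcon ⟨w, hw, ε, h2⟩
  choose f hf hf' using h1
  obtain ⟨δ, hδ, hδ'⟩ := cov_min f hf
  obtain ⟨u, hu, hTh, hB⟩ := hI k M χ hχ (fun c => rho χ (κ (some c)) (T (some c))) δ hδ
  obtain ⟨v, hv, hg⟩ := hG k (M + 1) χ (fun _ => 1) ((Fin (M + 1) → G k) × G k) Prod.snd
    (fun p c => rho χ (p.1 c) (u c)) (fun p => hB p.1) (rho χ (κ none) (T none)) δ hδ
  obtain ⟨w, hw, ε, b, c, hb, hc, hsum⟩ := hF k M χ (Wd χ) (fun _ => 1) u v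
    (fun f g => hg (f, g)) hTh
  refine hf' (w, ε) hw (fun i => rho χ (lab w ε i) (i.elim v u)) ?_
    ⟨fun i => i.elim b c, ?_, ?_⟩
  · intro i
    refine lt_of_lt_of_le ?_ (hδ' (w, ε))
    rw [cov_rho_add, cov_rho_sub]
    refine lt_of_le_of_lt (cov_rho_norm _ _ _) ?_
    cases i with
    | none => exact hv
    | some c => exact hu c
  · intro i
    cases i with
    | none => exact hb
    | some i => exact hc i
  · rw [Fintype.sum_option]
    exact hsum

end Pool.Agent.Tvb
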