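import Mathlib

/-!
# Lower bounds for the number of Tverberg partitions (MP_001fdd_co): definitions
-/

set_option autoImplicit false

namespace Pool.Agent.Tvb

open scoped Classical

/-- the group of labels, of order `2 ^ k` -/
abbrev G (k : ℕ) : Type := Fin k → ZMod 2

/-- sum of the first `i` letters of the word `w` -/
noncomputable def pA {k N : ℕ} (w : Fin N → Fin k) (i : ℕ) : G k :=
  ∑ c : Fin N, if (c : ℕ) < i then Pi.single (w c) 1 else 0

/-- the labels `a_{c + ε c}` -/
noncomputable def pt {k N : ℕ} (w : Fin N → Fin k) (ε : Fin N → Bool) : Fin N → G k :=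
  fun c => pA w ((c : ℕ) + if ε c then 1 else 0)

/-- the labels `a_{c + ε c}`, and `a_N` for `none` -/
noncomputable def lab {k N : ℕ} (w : Fin N → Fin k) (ε : Fin N → Bool) : Option (Fin N) → G k
  | none => pA w N
  | some c => pt w ε c

/-- value of the character `χ` at `g` -/
def dt {k : ℕ} (χ g : G k) : ZMod 2 := ∑ j, χ j * g j

/-- the sign `(-1) ^ (dt χ g)` -/
noncomputable def sg {k : ℕ} (χ g : G k) : ℝ := if dt χ g = 0 then 1 else -1

/-- action of `g` on `ℝ^N`, the coordinate `c` belongs to the character `χ c` -/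
noncomputable def rho {k N : ℕ} (χ : Fin N → G k) (g : G k) (v : Fin N → ℝ) : Fin N → ℝ :=
  fun c => sg (χ c) g * v c

/-- indicator with values in `ZMod 2` -/
noncomputable def ind (p : Prop) : ZMod 2 := if p then 1 else 0

section cone

variable {ι V : Type} [Fintype ι] [AddCommGroup V] [Module ℝ V]

/-- `ω` is in the open cone of the `x i` -/
def Pos (ω : V) (x : ι → V) : Prop := ∃ c : ι → ℝ, (∀ i, 0 < c i) ∧ ∑ i, c i • x i = ω

/-- `0` is a positive combination of `v` and the `x i` -/
def Zero (x : ι → V) (v : V) : Prop :=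
  ∃ (b : ℝ) (c : ι → ℝ), 0 < b ∧ (∀ i, 0 < c i) ∧ b • v + ∑ i, c i • x i = 0

/-- the `x i` are independent and `ω` is a combination with nonzero coefficients -/
def Base (ω : V) (x : ι → V) : Prop :=
  LinearIndependent ℝ x ∧ ∃ c : ι → ℝ, ω = ∑ i, c i • x i ∧ ∀ i, c i ≠ 0

/-- the `x i`, `v` and `ω` are in general position -/
def Good (ω v : V) (x : ι → V) : Prop :=
  LinearIndependent ℝ x ∧ ∃ α τ : ι → ℝ, v = ∑ i, α i • x i ∧ ω = ∑ i, (α i * τ i) • x i ∧
    (∀ i, α i ≠ 0) ∧ (∀ i, τ i ≠ 0) ∧ Function.Injective τ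

end cone

/-- the degree modulo 2 -/
noncomputable def Th {k N : ℕ} (χ : Fin N → G k) (W : Finset (Fin N → Fin k)) (ω : Fin N → ℝ)
    (u : Fin N → Fin N → ℝ) : ZMod 2 :=
  ∑ w ∈ W, ∑ ε : Fin N → Bool, ind (Pos ω (fun c => rho χ (pt w ε c) (u c)))

/-- the first coordinate at which `χ` does not vanish -/
noncomputable def lead {k : ℕ} [NeZero k] (χ : G k) : Fin k :=
  if h : (Finset.univ.filter fun j => χ j ≠ 0).Nonempty then
    (Finset.univ.filter fun j => χ j ≠ 0).min' h else 0

/-- the words which contain every letter as often as `c ↦ lead (χ c)` -/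
noncomputable def Wd {k N : ℕ} [NeZero k] (χ : Fin N → G k) : Finset (Fin N → Fin k) :=
  Finset.univ.filter fun w => ∃ σ : Equiv.Perm (Fin N), w = fun c => lead (χ (σ c))

/-- the nonzero characters -/
abbrev X (k : ℕ) : Type := {χ : G k // χ ≠ 0}

/-- the point `(p, 1)` -/
noncomputable def hat {d : ℕ} (p : EuclideanSpace ℝ (Fin d)) : Fin (d + 1) → ℝ :=
  Fin.snoc (α := fun _ => ℝ) (fun i : Fin d => p i) 1

/-- the vector of a point: the coordinate `(χ, j)` is the coordinate `j` of `(p, 1)` -/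
noncomputable def vec {k d N : ℕ} (e : Fin N ≃ X k × Fin (d + 1)) (p : EuclideanSpace ℝ (Fin d)) :
    Fin N → ℝ := fun c => hat p (e c).2

/-- the character of a coordinate -/
def chi {k d N : ℕ} (e : Fin N ≃ X k × Fin (d + 1)) : Fin N → G k := fun c => (e c).1.1

/-- the labellings `f` of the points `q i` for which `0` is in the convex hull of the vectors
`rho (f i) (vec (q i))` -/
def LabT {k d N : ℕ} (e : Fin N ≃ X k × Fin (d + 1))
    (q : Option (Fin N) → EuclideanSpace ℝ (Fin d)) : Set (Option (Fin N) → G k) :=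
  {f | ∃ c : Option (Fin N) → ℝ, (∀ i, 0 ≤ c i) ∧ ∑ i, c i = 1 ∧
    ∑ i, c i • rho (chi e) (f i) (vec e (q i)) = 0}

/-- the set of partitions of `S` into `m` parts whose convex hulls have a common point -/
def TP {d : ℕ} (m : ℕ) (S : Finset (EuclideanSpace ℝ (Fin d))) : Set (Finpartition S) :=
  {P : Finpartition S | P.parts.card = m ∧
    ∃ x : EuclideanSpace ℝ (Fin d), ∀ p ∈ P.parts,
      x ∈ convexHull ℝ (p : Set (EuclideanSpace ℝ (Fin d)))}

end Pool.Agent.Tvb
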