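import Pool.Agent.Tvb.Stmts

/-!
# The degree of the coordinate frame (MP_001fdd_co)
-/

set_option autoImplicit false

namespace Pool.Agent.Tvb

open scoped Classical

theorem Eval_rho {k N : ℕ} (χ : Fin N → G k) (g : G k) (c : Fin N) :
    rho χ g (Pi.single c (1 : ℝ)) = Pi.single c (sg (χ c) g) := by
  funext d
  simp only [rho]
  by_cases h : d = c
  · subst h; simp
  · rw [Pi.single_eq_of_ne h, Pi.single_eq_of_ne h, mul_zero]

theorem Eval_pos {N : ℕ} (s : Fin N → ℝ) (hs : ∀ c, s c = 1 ∨ s c = -1) :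
    Pos (fun _ : Fin N => (1 : ℝ)) (fun c => (Pi.single c (s c) : Fin N → ℝ)) ↔
      ∀ c, s c = 1 := by
  have key : ∀ (b : Fin N → ℝ) (d : Fin N),
      (∑ i, b i • (Pi.single i (s i) : Fin N → ℝ)) d = b d * s d := by
    intro b d
    rw [Finset.sum_apply, Finset.sum_eq_single d]
    · simp
    · intro i _ hi
      simp [Pi.single_eq_of_ne (Ne.symm hi)]
    · intro h; exact absurd (Finset.mem_univ d) h
  constructor
  · rintro ⟨b, hb, hsum⟩ c
    have h1 := congrFun hsum c
    rw [key b c] at h1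
    rcases hs c with h | h
    · exact h
    · exfalso
      rw [h] at h1
      have := hb c
      linarith
  · intro h
    refine ⟨fun _ => 1, fun _ => one_pos, ?_⟩
    funext d
    rw [key (fun _ => 1) d, h d, mul_one]

theorem Eval_pA {k N : ℕ} (w : Fin N → Fin k) (c : Fin N) :
    pA w ((c : ℕ) + 1) = pA w (c : ℕ) + Pi.single (w c) 1 := by
  have h1 : ∀ d : Fin N, (if (d : ℕ) < (c : ℕ) + 1 then (Pi.single (w d) 1 : G k) else 0) =
      (if (d : ℕ) < (c : ℕ) then (Pi.single (w d) 1 : G k) else 0) +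
        (if d = c then (Pi.single (w d) 1 : G k) else 0) := by
    intro d
    by_cases h : d = c
    · subst h; simp
    · have h' : (d : ℕ) ≠ (c : ℕ) := fun hh => h (Fin.ext hh)
      rw [if_neg h, add_zero]
      congr 1
      simp only [eq_iff_iff]
      omega
  simp only [pA]
  rw [Finset.sum_congr rfl fun d _ => h1 d, Finset.sum_add_distrib, Finset.sum_ite_eq' Finset.univ c,
    if_pos (Finset.mem_univ c)]

theorem Eval_dt_add {k : ℕ} (χ g h : G k) : dt χ (g + h) = dt χ g + dt χ h := by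
  simp only [dt, Pi.add_apply, mul_add, Finset.sum_add_distrib]

theorem Eval_dt_single {k : ℕ} (χ : G k) (j : Fin k) : dt χ (Pi.single j 1) = χ j := by
  simp only [dt]
  rw [Finset.sum_eq_single j]
  · simp
  · intro i _ hi
    simp [Pi.single_eq_of_ne hi]
  · intro h; exact absurd (Finset.mem_univ j) h

theorem Eval_ind2 (x y : ZMod 2) : ind (x = 0) + ind (x + y = 0) = y := by
  have h : ∀ x y : ZMod 2, (if x = 0 then (1 : ZMod 2) else 0) +
      (if x + y = 0 then (1 : ZMod 2) else 0) = y := by decide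
  have := h x y
  simp only [ind]
  convert this

theorem Eval_prod_ind {N : ℕ} (p : Fin N → Prop) : ind (∀ c, p c) = ∏ c, ind (p c) := by
  by_cases h : ∀ c, p c
  · rw [Finset.prod_eq_one fun c _ => by simp [ind, h c]]
    simp only [ind]
    rw [if_pos h]
  · have h' := h
    push Not at h'
    obtain ⟨c, hc⟩ := h'
    rw [Finset.prod_eq_zero (Finset.mem_univ c) (by simp [ind, hc])]
    simp only [ind]
    rw [if_neg h]

theorem Eval_sg {k : ℕ} (χ g : G k) : sg χ g = 1 ↔ dt χ g = 0 := by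
  unfold sg
  by_cases h : dt χ g = 0
  · rw [if_pos h]; exact ⟨fun _ => h, fun _ => rfl⟩
  · rw [if_neg h]
    exact ⟨fun h' => absurd h' (by norm_num), fun h' => absurd h' h⟩

theorem Eval_word {k N : ℕ} (χ : Fin N → G k) (w : Fin N → Fin k) :
    (∑ ε : Fin N → Bool, ind (Pos (fun _ : Fin N => (1 : ℝ))
      (fun c => rho χ (pt w ε c) (Pi.single c (1 : ℝ))))) = ∏ c, χ c (w c) := by
  have h1 : ∀ ε : Fin N → Bool, ind (Pos (fun _ : Fin N => (1 : ℝ))
      (fun c => rho χ (pt w ε c) (Pi.single c (1 : ℝ)))) =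
      ∏ c, ind (dt (χ c) (pA w ((c : ℕ) + if ε c then 1 else 0)) = 0) := by
    intro ε
    have h2 : (fun c => rho χ (pt w ε c) (Pi.single c (1 : ℝ))) =
        fun c => (Pi.single c (sg (χ c) (pt w ε c)) : Fin N → ℝ) := by
      funext c
      exact Eval_rho χ _ c
    rw [h2, ← Eval_prod_ind]
    congr 1
    rw [eq_iff_iff, Eval_pos]
    · refine forall_congr' fun c => ?_
      exact Eval_sg (χ c) _
    · intro c
      simp only [sg]
      split_ifs <;> simp
  rw [Finset.sum_congr rfl fun ε _ => h1 ε]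
  have h3 := Finset.prod_univ_sum (fun _ : Fin N => (Finset.univ : Finset Bool))
    (fun c b => ind (dt (χ c) (pA w ((c : ℕ) + if b then 1 else 0)) = 0))
  rw [Fintype.piFinset_univ] at h3
  rw [← h3]
  refine Finset.prod_congr rfl fun c _ => ?_
  rw [Fintype.sum_bool]
  simp only [if_true, Bool.false_eq_true, if_false, add_zero]
  rw [Eval_pA, Eval_dt_add, Eval_dt_single, add_comm]
  exact Eval_ind2 _ _

theorem Eval_lead_ne {k : ℕ} [NeZero k] (χ : G k) (h : χ ≠ 0) : χ (lead χ) ≠ 0 := by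
  have h1 : (Finset.univ.filter fun j => χ j ≠ 0).Nonempty := by
    obtain ⟨j, hj⟩ := Function.ne_iff.mp h
    exact ⟨j, Finset.mem_filter.mpr ⟨Finset.mem_univ j, hj⟩⟩
  have h2 : lead χ = (Finset.univ.filter fun j => χ j ≠ 0).min' h1 := by
    simp only [lead]
    rw [dif_pos h1]
  rw [h2]
  exact (Finset.mem_filter.mp (Finset.min'_mem _ h1)).2

theorem Eval_lead_le {k : ℕ} [NeZero k] (χ : G k) (j : Fin k) (h : χ j ≠ 0) : lead χ ≤ j := by
  have h0 : j ∈ Finset.univ.filter fun j => χ j ≠ 0 := Finset.mem_filter.mpr ⟨Finset.mem_univ j, h⟩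
  have h1 : (Finset.univ.filter fun j => χ j ≠ 0).Nonempty := ⟨j, h0⟩
  have h2 : lead χ = (Finset.univ.filter fun j => χ j ≠ 0).min' h1 := by
    simp only [lead]
    rw [dif_pos h1]
  rw [h2]
  exact Finset.min'_le _ _ h0

theorem tEval : Stmt_Eval := by
  intro k M _ χ hχ
  have h1 : Th χ (Wd χ) (fun _ => 1) (fun c => Pi.single c 1) =
      ∑ w ∈ Wd χ, ∏ c, χ c (w c) := by
    simp only [Th]
    exact Finset.sum_congr rfl fun w _ => Eval_word χ w
  rw [h1]
  have hw0 : (fun c => lead (χ c)) ∈ Wd χ :=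
    Finset.mem_filter.mpr ⟨Finset.mem_univ _, 1, rfl⟩
  rw [Finset.sum_eq_single_of_mem _ hw0]
  · refine Finset.prod_eq_one fun c _ => ?_
    have h2 := Eval_lead_ne (χ c) (hχ c)
    have h3 : ∀ x : ZMod 2, x ≠ 0 → x = 1 := by decide
    exact h3 _ h2
  · intro w hw hne
    by_contra hprod
    apply hne
    have h2 : ∀ c, χ c (w c) ≠ 0 := fun c =>
      (Finset.prod_ne_zero_iff.mp hprod) c (Finset.mem_univ c)
    obtain ⟨σ, hσ⟩ := (Finset.mem_filter.mp hw).2
    have h3 : ∀ c ∈ (Finset.univ : Finset (Fin (M + 1))), ((lead (χ c) : Fin k) : ℕ) ≤ (w c : ℕ) :=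
      fun c _ => Eval_lead_le (χ c) (w c) (h2 c)
    have h4 : ∑ c, ((lead (χ c) : Fin k) : ℕ) = ∑ c, (w c : ℕ) := by
      rw [hσ]
      exact (Equiv.sum_comp σ (fun c => ((lead (χ c) : Fin k) : ℕ))).symm
    have h5 := (Finset.sum_eq_sum_iff_of_le h3).mp h4
    funext c
    exact Fin.ext (h5 c (Finset.mem_univ c)).symm

end Pool.Agent.Tvb
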