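import Pool.Agent.Tvb.Step

/-!
# Module Fin: if the degree is one there is a zero (MP_001fdd_co)
-/

set_option autoImplicit false

namespace Pool.Agent.Tvb

open scoped Classical

theorem tFin (hV : Stmt_Vec) : Stmt_Fin := by
  intro k M χ W ω u v hG hTh
  by_contra hcon
  push Not at hcon
  have hvec : ∀ w ∈ W, ∀ ε : Fin (M + 1) → Bool,
      ind (Pos ω (fun c => rho χ (pt w ε c) (u c))) +
        ∑ c, ind (Pos ω (Function.update (fun c => rho χ (pt w ε c) (u c)) c
          (rho χ (pA w (M + 1)) v))) = 0 := by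
    intro w hw ε
    have h := (hV _ _ ω _ _ (hG (pt w ε) (pA w (M + 1)))).1
    have h0 : ind (Zero (fun c => rho χ (pt w ε c) (u c)) (rho χ (pA w (M + 1)) v)) = 0 :=
      if_neg (hcon w hw ε)
    rw [h0] at h
    rw [Subsingleton.elim (fun a b : Fin (M + 1) => Classical.propDecidable (a = b)) (instDecidableEqFin (M + 1))] at h
    exact h
  have hsum : ∑ w ∈ W, ∑ ε : Fin (M + 1) → Bool,
      (ind (Pos ω (fun c => rho χ (pt w ε c) (u c))) +
        ∑ c, ind (Pos ω (Function.update (fun c => rho χ (pt w ε c) (u c)) c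
          (rho χ (pA w (M + 1)) v)))) = 0 :=
    Finset.sum_eq_zero (fun w hw => Finset.sum_eq_zero (fun ε _ => hvec w hw ε))
  have hterm : ∀ w ∈ W, ∑ ε : Fin (M + 1) → Bool,
      (ind (Pos ω (fun c => rho χ (pt w ε c) (u c))) +
        ∑ c, ind (Pos ω (Function.update (fun c => rho χ (pt w ε c) (u c)) c
          (rho χ (pA w (M + 1)) v)))) =
      ∑ ε : Fin (M + 1) → Bool, ind (Pos ω (fun c => rho χ (pt w ε c) (u c))) := by
    intro w _
    rw [Finset.sum_add_distrib]
    have h1 : ∑ ε : Fin (M + 1) → Bool, ∑ c, ind (Pos ω (Function.update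
        (fun c => rho χ (pt w ε c) (u c)) c (rho χ (pA w (M + 1)) v))) = 0 := by
      rw [Finset.sum_comm]
      apply Finset.sum_eq_zero
      intro c _
      apply Step_cancel c
      intro ε
      congr 2
      funext c'
      by_cases h : c' = c
      · subst h
        rw [Function.update_self, Function.update_self]
      · rw [Function.update_of_ne h, Function.update_of_ne h, Step_pt w ε c c' _ h]
    rw [h1, add_zero]
  rw [Finset.sum_congr rfl hterm] at hsum
  have h2 : Th χ W ω u = 0 := hsum
  rw [h2] at hTh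
  exact absurd hTh (by decide)

end Pool.Agent.Tvb
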