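import Pool.Agent.Tvb.Stmts

set_option autoImplicit false

namespace Pool.Agent.Tvb

open scoped Classical

theorem card_X (k : ℕ) : Fintype.card (X k) = 2 ^ k - 1 := by
  have h1 : Fintype.card (G k) = 2 ^ k := by simp [G]
  rw [show Fintype.card (X k) = Fintype.card {χ : G k // ¬ χ = 0} from rfl,
    Fintype.card_subtype_compl, h1]
  simp

theorem finalA (hCov : Stmt_Cov) (hWc : Stmt_Wc) (hFour : Stmt_Four) (hLab : Stmt_Lab)
    (hDbl : Stmt_Dbl) (hAr : Stmt_Ar) (k d : ℕ) (hk : 1 ≤ k)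
    (S : Finset (EuclideanSpace ℝ (Fin d))) (hS : S.card = (2 ^ k - 1) * (d + 1) + 1) :
    ((2 ^ k - 1).factorial) ^ d ≤ 4 ^ ((2 ^ k - 1) * (d + 1)) * (TP (2 ^ k) S).ncard := by
  have : NeZero k := ⟨by omega⟩
  have h2 : 2 ≤ 2 ^ k := by
    calc 2 = 2 ^ 1 := rfl
      _ ≤ 2 ^ k := Nat.pow_le_pow_right (by norm_num) hk
  obtain ⟨M, hM⟩ : ∃ M, (2 ^ k - 1) * (d + 1) = M + 1 := by
    have : 0 < (2 ^ k - 1) * (d + 1) := Nat.mul_pos (by omega) (by omega)
    exact ⟨(2 ^ k - 1) * (d + 1) - 1, by omega⟩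
  apply hAr k d _ hk
  rw [hM] at hS ⊢
  have he : Fintype.card (Fin (M + 1)) = Fintype.card (X k × Fin (d + 1)) := by
    rw [Fintype.card_prod, card_X, Fintype.card_fin, Fintype.card_fin, hM]
  obtain ⟨e⟩ := Fintype.card_eq.1 he
  have hq : Fintype.card (Option (Fin (M + 1))) = Fintype.card S := by
    simp [hS]
  obtain ⟨q⟩ := Fintype.card_eq.1 hq
  let A : Finset (Option (Fin (M + 1)) → G k) :=
    Finset.univ.filter fun f => f ∈ LabT e (fun i => (q i : EuclideanSpace ℝ (Fin d)))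
  have hA : A.card ≤ (2 ^ k).factorial * (TP (2 ^ k) S).ncard := by
    apply hLab k d (M + 1) S q A
    intro f hf
    exact hFour k d (M + 1) e _ f (Finset.mem_filter.1 hf).2
  have hW := hWc k d (M + 1) e
  have hD := hDbl k (M + 1) (Wd (chi e)) A (by
    intro κ
    obtain ⟨w, hw, ε, c, h0, h1, h2⟩ := hCov k M (chi e) (fun c => (e c).1.2)
      (fun i => vec e (q i : EuclideanSpace ℝ (Fin d))) κ
    exact ⟨w, hw, ε, Finset.mem_filter.2 ⟨Finset.mem_univ _, c, h0, h1, h2⟩⟩)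
  refine (hD.trans (Nat.mul_le_mul (Nat.mul_le_mul hW le_rfl) hA)).trans (le_of_eq ?_)
  rw [← mul_pow]; norm_num

end Pool.Agent.Tvb
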