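import Pool.Agent.Tvb.Stmts

/-!
# The labellings are Tverberg labellings
-/

set_option autoImplicit false

namespace Pool.Agent.Tvb

open scoped Classical

theorem Four_dt_add {k : ℕ} (χ χ' g : G k) : dt (χ + χ') g = dt χ g + dt χ' g := by
  unfold dt
  rw [← Finset.sum_add_distrib]
  exact Finset.sum_congr rfl fun j _ => by simp [add_mul]

theorem Four_dt_add_right {k : ℕ} (χ g g' : G k) : dt χ (g + g') = dt χ g + dt χ g' := by
  unfold dt
  rw [← Finset.sum_add_distrib]
  exact Finset.sum_congr rfl fun j _ => by simp [mul_add]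

theorem Four_sgn (a b : ZMod 2) : (if a + b = 0 then (1 : ℝ) else -1) =
    (if a = 0 then (1 : ℝ) else -1) * (if b = 0 then (1 : ℝ) else -1) := by
  have h2 : ∀ z : ZMod 2, z = 0 ∨ z = 1 := by decide
  rcases h2 a with rfl | rfl <;> rcases h2 b with rfl | rfl
  · simp
  · simp
  · simp
  · have : (1 : ZMod 2) + 1 = 0 := by decide
    rw [this]; simp

theorem Four_sg_add {k : ℕ} (χ χ' g : G k) : sg (χ + χ') g = sg χ g * sg χ' g := by
  unfold sg
  rw [Four_dt_add, Four_sgn]

theorem Four_sg_add_right {k : ℕ} (χ g g' : G k) : sg χ (g + g') = sg χ g * sg χ g' := by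
  unfold sg
  rw [Four_dt_add_right, Four_sgn]

theorem Four_sg_zero {k : ℕ} (g : G k) : sg 0 g = 1 := by
  unfold sg dt
  simp

theorem Four_sum_sg {k : ℕ} (g : G k) : ∑ χ : G k, sg χ g = if g = 0 then (2 : ℝ) ^ k else 0 := by
  split_ifs with h
  · subst h
    have : ∀ χ : G k, sg χ 0 = 1 := by
      intro χ
      unfold sg dt
      simp
    simp [this]
  · obtain ⟨j, hj⟩ := Function.ne_iff.1 h
    have h2 : ∀ z : ZMod 2, z = 0 ∨ z = 1 := by decide
    have hj1 : g j = 1 := (h2 (g j)).resolve_left hj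
    have h3 : sg (Pi.single j 1) g = -1 := by
      have : dt (Pi.single j 1) g = 1 := by
        unfold dt
        rw [Finset.sum_eq_single j]
        · simp [hj1]
        · intro b _ hb
          simp [Pi.single_eq_of_ne hb]
        · simp
      unfold sg
      rw [this]
      simp
    have h4 : ∑ χ : G k, sg χ g = ∑ χ : G k, sg (χ + Pi.single j 1) g :=
      (Equiv.sum_comp (Equiv.addRight (Pi.single j 1 : G k)) fun χ => sg χ g).symm
    simp only [Four_sg_add, h3, mul_neg, mul_one, Finset.sum_neg_distrib] at h4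
    linarith

theorem Four_inv {k : ℕ} (C : G k → ℝ) (hC : ∀ χ : G k, χ ≠ 0 → ∑ h, sg χ h * C h = 0) (h : G k) :
    (2 : ℝ) ^ k * C h = ∑ h', C h' := by
  have h1 : ∑ χ : G k, sg χ h * ∑ h', sg χ h' * C h' = ∑ h', C h' := by
    rw [Finset.sum_eq_single 0]
    · simp [Four_sg_zero]
    · intro χ _ hχ
      rw [hC χ hχ, mul_zero]
    · simp
  rw [← h1]
  have h2 : ∀ χ : G k, sg χ h * ∑ h', sg χ h' * C h' = ∑ h', sg χ (h + h') * C h' := by
    intro χ
    rw [Finset.mul_sum]
    exact Finset.sum_congr rfl fun h' _ => by rw [Four_sg_add_right]; ring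
  simp only [h2]
  rw [Finset.sum_comm]
  have h3 : ∀ h' : G k, ∑ χ : G k, sg χ (h + h') * C h' = if h' = h then (2 : ℝ) ^ k * C h' else 0 := by
    intro h'
    rw [← Finset.sum_mul, Four_sum_sg]
    have h4 : h + h' = 0 ↔ h' = h := by
      have h5 : ∀ z : ZMod 2, z + z = 0 := by decide
      constructor
      · intro h6
        funext j
        have h7 := congrFun h6 j
        have h8 := h5 (h j)
        have h9 : h j + h' j = h j + h j := by rw [h8]; exact h7
        exact add_left_cancel h9
      · rintro rfl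
        funext j
        exact h5 _
    by_cases h5 : h' = h
    · rw [if_pos (h4.2 h5), if_pos h5]
    · rw [if_neg (fun h6 => h5 (h4.1 h6)), if_neg h5, zero_mul]
  simp only [h3]
  simp

theorem tFour : Stmt_Four := by
  intro k d N _ e q f hf
  obtain ⟨c, hc0, hc1, hc2⟩ := hf
  -- the equations of the coordinates
  have hco : ∀ (χ : G k) (hχ : χ ≠ 0) (j : Fin (d + 1)),
      ∑ i, c i * (sg χ (f i) * hat (q i) j) = 0 := by
    intro χ hχ j
    have h1 := congrFun hc2 (e.symm (⟨χ, hχ⟩, j))
    rw [Finset.sum_apply] at h1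
    rw [Pi.zero_apply] at h1
    rw [← h1]
    refine Finset.sum_congr rfl fun i _ => ?_
    simp [rho, chi, vec]
  -- the partial sums
  have key : ∀ (j : Fin (d + 1)) (h : G k),
      (2 : ℝ) ^ k * ∑ i, (if f i = h then c i * hat (q i) j else 0) = ∑ i, c i * hat (q i) j := by
    intro j h
    rw [Four_inv (fun h => ∑ i, (if f i = h then c i * hat (q i) j else 0)) _ h]
    · rw [Finset.sum_comm]
      refine Finset.sum_congr rfl fun i _ => ?_
      simp
    · intro χ hχ
      refine Eq.trans ?_ (hco χ hχ j)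
      simp only [Finset.mul_sum]
      rw [Finset.sum_comm]
      refine Finset.sum_congr rfl fun i _ => ?_
      rw [Finset.sum_eq_single (f i)]
      · simp; ring
      · intro b _ hb
        rw [if_neg (Ne.symm hb), mul_zero]
      · simp
  refine ⟨∑ i, c i • q i, fun h => ?_⟩
  have hmass : ∑ i ∈ Finset.univ.filter (fun i => f i = h), (2 : ℝ) ^ k * c i = 1 := by
    have h1 := key (Fin.last d) h
    simp only [hat, Fin.snoc_last, mul_one] at h1
    rw [hc1] at h1
    rw [← Finset.mul_sum, Finset.sum_filter]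
    exact h1
  have hy : ∑ i, c i • q i =
      ∑ i ∈ Finset.univ.filter (fun i => f i = h), ((2 : ℝ) ^ k * c i) • q i := by
    ext j
    have h1 := key (Fin.castSucc j) h
    simp only [hat, Fin.snoc_castSucc] at h1
    simp only [WithLp.ofLp_sum, WithLp.ofLp_smul, Finset.sum_apply, Pi.smul_apply, smul_eq_mul]
    rw [← h1, Finset.mul_sum, Finset.sum_filter]
    refine Finset.sum_congr rfl fun i _ => ?_
    split_ifs <;> ring
  rw [hy]
  refine (convex_convexHull ℝ _).sum_mem (fun i _ => by have := hc0 i; positivity) hmass ?_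
  intro i hi
  exact subset_convexHull ℝ _ ⟨i, (Finset.mem_filter.1 hi).2, rfl⟩

end Pool.Agent.Tvb
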