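import Pool.Agent.Tvb.Stmts

/-!
# Generic families near given ones have degree one (MP_001fdd_co, module Ind)
-/

set_option autoImplicit false

namespace Pool.Agent.Tvb

open scoped Classical

private lemma ind_sg_ne {k : ℕ} (χ g : G k) : sg χ g ≠ 0 := by
  unfold sg
  split_ifs <;> norm_num

private lemma ind_sg_sq {k : ℕ} (χ g : G k) : sg χ g * sg χ g = 1 := by
  unfold sg
  split_ifs <;> norm_num

private lemma ind_rho_single {k N : ℕ} (χ : Fin N → G k) (g : G k) (c : Fin N) :
    rho χ g (Pi.single c 1) = sg (χ c) g • (Pi.single c 1 : Fin N → ℝ) := by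
  funext j
  by_cases h : j = c
  · subst h
    simp [rho]
  · simp [rho, Pi.single_eq_of_ne h]

private lemma ind_base {k N : ℕ} (χ : Fin N → G k) (f : Fin N → G k) :
    Base (fun _ => (1 : ℝ)) (fun c => rho χ (f c) (Pi.single c 1 : Fin N → ℝ)) := by
  have he : ∀ d : Fin N → ℝ, ∑ c, d c • rho χ (f c) (Pi.single c 1 : Fin N → ℝ) =
      fun c => d c * sg (χ c) (f c) := by
    intro d
    funext j
    rw [Finset.sum_apply, Finset.sum_eq_single j]
    · simp [ind_rho_single]
    · intro c _ hc
      simp [ind_rho_single, Pi.single_eq_of_ne (Ne.symm hc)]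
    · intro h
      exact absurd (Finset.mem_univ j) h
  refine ⟨?_, fun c => sg (χ c) (f c), ?_, fun c => ind_sg_ne _ _⟩
  · rw [Fintype.linearIndependent_iff]
    intro d hd i
    rw [he] at hd
    have := congrFun hd i
    exact (mul_eq_zero.mp this).resolve_right (ind_sg_ne _ _)
  · rw [he]
    funext c
    rw [ind_sg_sq]

private lemma ind_Wd_perm {k N : ℕ} [NeZero k] (χ : Fin N → G k) :
    ∀ w ∈ Wd χ, ∀ σ : Equiv.Perm (Fin N), (fun c => w (σ c)) ∈ Wd χ := by
  intro w hw σ
  simp only [Wd, Finset.mem_filter, Finset.mem_univ, true_and] at *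
  obtain ⟨τ, hτ⟩ := hw
  exact ⟨σ.trans τ, by rw [hτ]; rfl⟩

theorem tInd (hS : Stmt_Step) (hV : Stmt_Vec) (hG : Stmt_Gen) (hE : Stmt_Eval) : Stmt_Ind := by
  intro k M _ χ hχ T δ hδ
  have key : ∀ i : ℕ, i ≤ M + 1 → ∃ u : Fin (M + 1) → Fin (M + 1) → ℝ,
      (∀ c : Fin (M + 1), c.val < i → ‖u c - T c‖ < δ) ∧
      Th χ (Wd χ) (fun _ => 1) u = 1 ∧
      ∀ f : Fin (M + 1) → G k, Base (fun _ => 1) (fun c => rho χ (f c) (u c)) := by
    intro i
    induction i with
    | zero =>
      intro _
      exact ⟨fun c => Pi.single c 1, fun c hc => absurd hc (by omega), hE k M χ hχ,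
        fun f => ind_base χ f⟩
    | succ i ih =>
      intro hi
      obtain ⟨u, hu1, hu2, hu3⟩ := ih (by omega)
      let c0 : Fin (M + 1) := ⟨i, by omega⟩
      obtain ⟨v, hv1, hv2⟩ := hG k (M + 1) χ (fun _ => 1) (Fin (M + 1) → G k) (fun f => f c0)
        (fun f c => rho χ (f c) (u c)) hu3 (T c0) δ hδ
      refine ⟨Function.update u c0 v, fun c hc => ?_, ?_, fun f => ?_⟩
      · by_cases h : c = c0
        · rw [h, Function.update_self]
          exact hv1
        · rw [Function.update_of_ne h]
          refine hu1 c ?_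
          have : c.val ≠ i := fun h' => h (Fin.ext h')
          omega
      · rw [hS k M χ (Wd χ) (ind_Wd_perm χ) (fun _ => 1) u v c0 hv2]
        exact hu2
      · have h1 := (hV (Fin (M + 1)) (Fin (M + 1) → ℝ) (fun _ => 1) (rho χ (f c0) v)
          (fun c => rho χ (f c) (u c)) (hv2 f)).2 c0
        have h2 : (fun c => rho χ (f c) (Function.update u c0 v c)) =
            Function.update (fun c => rho χ (f c) (u c)) c0 (rho χ (f c0) v) := by
          funext c
          by_cases h : c = c0
          · rw [h, Function.update_self, Function.update_self]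
          · rw [Function.update_of_ne h, Function.update_of_ne h]
        rw [h2]
        rw [Subsingleton.elim (fun a b : Fin (M + 1) => Classical.propDecidable (a = b)) (instDecidableEqFin (M + 1))] at h1
        exact h1
  obtain ⟨u, h1, h2, h3⟩ := key (M + 1) le_rfl
  exact ⟨u, fun c => h1 c c.2, h2, h3⟩

end Pool.Agent.Tvb
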