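import Pool.Agent.Tvb.Stmts

/-!
# TVB module Lab: labellings and partitions (A13)
-/

set_option autoImplicit false

namespace Pool.Agent.Tvb

open scoped Classical

section lab

variable {k d N : ℕ} {S : Finset (EuclideanSpace ℝ (Fin d))} (q : Option (Fin N) ≃ S)

/-- the class of the label `h` -/
noncomputable def Lab_B (f : Option (Fin N) → G k) (h : G k) :
    Finset (EuclideanSpace ℝ (Fin d)) :=
  (Finset.univ.filter fun i => f i = h).image fun i => (q i : EuclideanSpace ℝ (Fin d))

theorem Lab_mem (f : Option (Fin N) → G k) (h : G k) (x : EuclideanSpace ℝ (Fin d)) :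
    x ∈ Lab_B q f h ↔ ∃ i, f i = h ∧ (q i : EuclideanSpace ℝ (Fin d)) = x := by
  simp [Lab_B]

theorem Lab_mem' (f : Option (Fin N) → G k) (h : G k) (i : Option (Fin N)) :
    (q i : EuclideanSpace ℝ (Fin d)) ∈ Lab_B q f h ↔ f i = h := by
  rw [Lab_mem]
  constructor
  · rintro ⟨j, hj, hij⟩
    have : j = i := q.injective (Subtype.ext hij)
    rw [← this]; exact hj
  · intro hi
    exact ⟨i, hi, rfl⟩

theorem Lab_coe (f : Option (Fin N) → G k) (h : G k) :
    (Lab_B q f h : Set (EuclideanSpace ℝ (Fin d))) =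
      (fun i => (q i : EuclideanSpace ℝ (Fin d))) '' {i | f i = h} := by
  ext x
  rw [Finset.mem_coe, Lab_mem]
  simp

theorem Lab_B_inj : Function.Injective (Lab_B (k := k) q) := by
  intro f f' hff
  funext i
  have h1 : (q i : EuclideanSpace ℝ (Fin d)) ∈ Lab_B q f (f i) := (Lab_mem' q f _ i).mpr rfl
  rw [hff, Lab_mem'] at h1
  exact h1.symm

theorem Lab_inj (f : Option (Fin N) → G k) (hf : ∀ h, (Lab_B q f h).Nonempty) :
    Function.Injective (Lab_B q f) := by
  intro h h' hh
  obtain ⟨x, hx⟩ := hf h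
  obtain ⟨i, hi, hix⟩ := (Lab_mem q f h x).mp hx
  have : (q i : EuclideanSpace ℝ (Fin d)) ∈ Lab_B q f h' := by
    rw [← hh, hix]; exact hx
  rw [Lab_mem'] at this
  rw [← hi, this]

/-- the partition -/
noncomputable def Lab_P (f : Option (Fin N) → G k) (hf : ∀ h, (Lab_B q f h).Nonempty) :
    Finpartition S :=
  Finpartition.ofExistsUnique (Finset.univ.image (Lab_B q f))
    (by
      intro p hp
      obtain ⟨h, _, rfl⟩ := Finset.mem_image.mp hp
      intro x hx
      obtain ⟨i, _, rfl⟩ := (Lab_mem q f h x).mp hx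
      exact (q i).2)
    (by
      intro a ha
      refine ⟨Lab_B q f (f (q.symm ⟨a, ha⟩)), ?_, ?_⟩
      · refine ⟨Finset.mem_image_of_mem _ (Finset.mem_univ _), ?_⟩
        rw [Lab_mem]
        exact ⟨q.symm ⟨a, ha⟩, rfl, by simp⟩
      · rintro p ⟨hp, hap⟩
        obtain ⟨h, _, rfl⟩ := Finset.mem_image.mp hp
        obtain ⟨i, hi, hia⟩ := (Lab_mem q f h a).mp hap
        have : q.symm ⟨a, ha⟩ = i := by
          rw [Equiv.symm_apply_eq]
          exact Subtype.ext hia.symm
        rw [this, hi])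
    (by
      intro hp
      obtain ⟨h, _, hh⟩ := Finset.mem_image.mp hp
      exact (hf h).ne_empty hh)

theorem Lab_P_parts (f : Option (Fin N) → G k) (hf : ∀ h, (Lab_B q f h).Nonempty) :
    (Lab_P q f hf).parts = Finset.univ.image (Lab_B q f) := rfl

theorem Lab_card_G : Fintype.card (G k) = 2 ^ k := by
  simp [G]

end lab

theorem Lab_finite {d : ℕ} (S : Finset (EuclideanSpace ℝ (Fin d))) : Finite (Finpartition S) := by
  refine Finite.of_injective
    (fun P : Finpartition S => (⟨P.parts, by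
      rw [Finset.mem_powerset]
      intro p hp
      rw [Finset.mem_powerset]
      exact P.le hp⟩ : {x // x ∈ S.powerset.powerset})) ?_
  intro P Q hPQ
  simp only [Subtype.mk.injEq] at hPQ
  exact Finpartition.ext hPQ

theorem tLab : Stmt_Lab := by
  intro k d N S q A hA
  have hne : ∀ f ∈ A, ∀ h, (Lab_B q f h).Nonempty := by
    intro f hf h
    obtain ⟨y, hy⟩ := hA f hf
    have h1 := hy h
    rw [← Lab_coe] at h1
    by_contra hcon
    rw [Finset.not_nonempty_iff_eq_empty] at hcon
    rw [hcon] at h1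
    simp at h1
  set Φ : (Option (Fin N) → G k) → Finset (Finset (EuclideanSpace ℝ (Fin d))) :=
    fun f => Finset.univ.image (Lab_B q f) with hΦ
  have hTP : ∀ f (hf : f ∈ A), Lab_P q f (hne f hf) ∈ TP (2 ^ k) S := by
    intro f hf
    refine ⟨?_, ?_⟩
    · rw [Lab_P_parts, Finset.card_image_of_injective _ (Lab_inj q f (hne f hf)),
        Finset.card_univ, Lab_card_G]
    · obtain ⟨y, hy⟩ := hA f hf
      refine ⟨y, fun p hp => ?_⟩
      rw [Lab_P_parts] at hp
      obtain ⟨h, _, rfl⟩ := Finset.mem_image.mp hp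
      rw [Lab_coe]
      exact hy h
  have hfin : Finite (Finpartition S) := Lab_finite S
  have himg : (A.image Φ).card ≤ (TP (2 ^ k) S).ncard := by
    have hsub : ((A.image Φ : Finset _) : Set (Finset (Finset (EuclideanSpace ℝ (Fin d))))) ⊆
        (fun P : Finpartition S => P.parts) '' TP (2 ^ k) S := by
      intro a ha
      rw [Finset.mem_coe, Finset.mem_image] at ha
      obtain ⟨f, hf, rfl⟩ := ha
      exact ⟨Lab_P q f (hne f hf), hTP f hf, rfl⟩
    calc (A.image Φ).card
        = ((A.image Φ : Finset _) : Set (Finset (Finset (EuclideanSpace ℝ (Fin d))))).ncard :=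
          (Set.ncard_coe_finset _).symm
      _ ≤ ((fun P : Finpartition S => P.parts) '' TP (2 ^ k) S).ncard :=
          Set.ncard_le_ncard hsub ((Set.toFinite _).image _)
      _ ≤ (TP (2 ^ k) S).ncard := Set.ncard_image_le (Set.toFinite _)
  refine le_trans (Finset.card_le_mul_card_image (f := Φ) A (2 ^ k).factorial ?_)
    (Nat.mul_le_mul_left _ himg)
  intro a ha
  obtain ⟨f0, hf0, hf0a⟩ := Finset.mem_image.mp ha
  have hcard : a.card = 2 ^ k := by
    rw [← hf0a]
    simp only [hΦ]
    rw [Finset.card_image_of_injective _ (Lab_inj q f0 (hne f0 hf0)), Finset.card_univ, Lab_card_G]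
  have hT : (Finset.univ.image (fun (e : G k ↪ a) (h : G k) =>
      (e h : Finset (EuclideanSpace ℝ (Fin d))))).card ≤ (2 ^ k).factorial := by
    refine Finset.card_image_le.trans ?_
    rw [Finset.card_univ, Fintype.card_embedding_eq, Fintype.card_coe, hcard, Lab_card_G,
      Nat.descFactorial_self]
  refine le_trans ?_ hT
  refine Finset.card_le_card_of_injOn (Lab_B q) ?_ ((Lab_B_inj q).injOn)
  intro f hf
  simp only [Finset.coe_filter, Set.mem_setOf_eq] at hf
  obtain ⟨hfA, hfa⟩ := hf
  rw [Finset.mem_coe, Finset.mem_image]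
  refine ⟨⟨fun h => ⟨Lab_B q f h, ?_⟩, ?_⟩, Finset.mem_univ _, rfl⟩
  · rw [← hfa]
    exact Finset.mem_image_of_mem _ (Finset.mem_univ _)
  · intro h h' hh
    simp only [Subtype.mk.injEq] at hh
    exact Lab_inj q f (hne f hfA) hh

end Pool.Agent.Tvb
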