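import Pool.Agent.Tvb.Stmts

/-!
# Module Path: the sum of the cells of the words
-/

set_option autoImplicit false

namespace Pool.Agent.Tvb

open scoped Classical

section

variable {A : Type}

/-- sum over the cells -/
def PathBx : ℕ → (ℕ → A) → (List A → ZMod 2) → ZMod 2
  | 0, _, H => H []
  | n + 1, a, H => PathBx n (fun i => a (i + 1)) (fun t => H (a 0 :: t)) +
      PathBx n (fun i => a (i + 1)) (fun t => H (a 1 :: t))

/-- sum over the faces -/
def PathPh : ℕ → (ℕ → A) → (List A → ZMod 2) → ZMod 2
  | 0, _, H => H []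
  | 1, b, H => H [b 0]
  | n + 2, b, H => PathPh (n + 1) (fun i => b (i + 1)) (fun t => H (b 0 :: t)) +
      PathPh (n + 1) (fun i => b (i + 1)) (fun t => H (b 1 :: t))

/-- omit the index `i` -/
def PathSk (i j : ℕ) : ℕ := if j < i then j else j + 1

theorem Path_two (x : ZMod 2) : x + x = 0 := by
  revert x
  decide

theorem Path_congr : ∀ (n : ℕ) (b b' : ℕ → A) (H : List A → ZMod 2), (∀ i < n, b i = b' i) →
    PathPh n b H = PathPh n b' H
  | 0, _, _, _, _ => rfl
  | 1, b, b', H, h => by
      rw [PathPh, PathPh, h 0 (by omega)]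
  | n + 2, b, b', H, h => by
      rw [PathPh, PathPh, h 0 (by omega), h 1 (by omega)]
      rw [Path_congr (n + 1) (fun i => b (i + 1)) (fun i => b' (i + 1)) _
        (fun i hi => h (i + 1) (by omega)),
        Path_congr (n + 1) (fun i => b (i + 1)) (fun i => b' (i + 1)) _
        (fun i hi => h (i + 1) (by omega))]

theorem Path_face : ∀ (n : ℕ) (a : ℕ → A) (H : List A → ZMod 2),
    PathBx n a H = ∑ i ∈ Finset.range (n + 1), PathPh n (fun j => a (PathSk i j)) H := by
  intro n
  induction n with
  | zero =>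
    intro a H
    simp [PathBx, PathPh]
  | succ n ih =>
    intro a H
    rw [PathBx, ih, ih, Finset.sum_range_succ' _ (n + 1), Finset.sum_range_succ' _ n,
      Finset.sum_range_succ' _ n, Finset.sum_range_succ' _ n]
    rcases n with _ | m
    · simp only [Finset.range_zero, Finset.sum_empty, zero_add]
      simp only [PathPh, PathSk]
      norm_num
    · have h1 : ∀ i, PathPh (m + 1 + 1) (fun j => a (PathSk (i + 1 + 1) j)) H =
          PathPh (m + 1) (fun j => a (PathSk (i + 1) j + 1)) (fun t => H (a 0 :: t)) +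
          PathPh (m + 1) (fun j => a (PathSk (i + 1) j + 1)) (fun t => H (a 1 :: t)) := by
        intro i
        rw [PathPh]
        have e0 : a (PathSk (i + 1 + 1) 0) = a 0 := by
          rw [PathSk, if_pos (by omega)]
        have e1 : a (PathSk (i + 1 + 1) 1) = a 1 := by
          rw [PathSk, if_pos (by omega)]
        have e2 : (fun j => a (PathSk (i + 1 + 1) (j + 1))) =
            fun j => a (PathSk (i + 1) j + 1) := by
          funext j
          unfold PathSk
          by_cases hj : j < i + 1
          · rw [if_pos (by omega), if_pos hj]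
          · rw [if_neg (by omega), if_neg hj]
        simp only [e0, e1, e2]
      have h2 : PathPh (m + 1 + 1) (fun j => a (PathSk (0 + 1) j)) H =
          PathPh (m + 1) (fun j => a (j + 2)) (fun t => H (a 0 :: t)) +
          PathPh (m + 1) (fun j => a (j + 2)) (fun t => H (a 2 :: t)) := by
        rw [PathPh]
        have e2 : (fun j => a (PathSk (0 + 1) (j + 1))) = fun j => a (j + 2) := by
          funext j
          rw [PathSk, if_neg (by omega)]
        have e0 : a (PathSk (0 + 1) 0) = a 0 := by
          rw [PathSk, if_pos (by omega)]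
        have e1 : a (PathSk (0 + 1) 1) = a 2 := by
          rw [PathSk, if_neg (by omega)]
        simp only [e0, e1, e2]
      have h3 : PathPh (m + 1 + 1) (fun j => a (PathSk 0 j)) H =
          PathPh (m + 1) (fun j => a (j + 2)) (fun t => H (a 1 :: t)) +
          PathPh (m + 1) (fun j => a (j + 2)) (fun t => H (a 2 :: t)) := by
        rw [PathPh]
        have e2 : (fun j => a (PathSk 0 (j + 1))) = fun j => a (j + 2) := by
          funext j
          rw [PathSk, if_neg (by omega)]
        have e0 : a (PathSk 0 0) = a 1 := by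
          rw [PathSk, if_neg (by omega)]
        have e1 : a (PathSk 0 1) = a 2 := by
          rw [PathSk, if_neg (by omega)]
        simp only [e0, e1, e2]
      have h4 : (fun j => a (PathSk 0 j + 1)) = fun j => a (j + 2) := by
        funext j
        rw [PathSk, if_neg (by omega)]
      rw [Finset.sum_congr rfl fun i _ => h1 i, h2, h3, h4, Finset.sum_add_distrib]
      have h5 := Path_two (PathPh (m + 1) (fun j => a (j + 2)) (fun t => H (a 2 :: t)))
      linear_combination (-1) * h5

theorem Path_rep : ∀ (j n : ℕ) (b : ℕ → A) (H : List A → ZMod 2), j + 1 < n → b j = b (j + 1) →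
    PathPh n b H = 0 := by
  intro j
  induction j with
  | zero =>
    intro n b H hn hb
    obtain ⟨m, rfl⟩ : ∃ m, n = m + 2 := ⟨n - 2, by omega⟩
    rw [PathPh, hb]
    exact Path_two _
  | succ j ih =>
    intro n b H hn hb
    obtain ⟨m, rfl⟩ : ∃ m, n = m + 2 := ⟨n - 2, by omega⟩
    rw [PathPh, ih (m + 1) _ _ (by omega) hb, ih (m + 1) _ _ (by omega) hb, add_zero]

theorem Path_map (s : A → A) : ∀ (n : ℕ) (b : ℕ → A) (H : List A → ZMod 2),
    PathPh n (fun i => s (b i)) H = PathPh n b (fun t => H (t.map s))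
  | 0, _, _ => rfl
  | 1, _, _ => rfl
  | n + 2, b, H => by
      rw [PathPh, PathPh, Path_map s (n + 1) (fun i => b (i + 1)),
        Path_map s (n + 1) (fun i => b (i + 1))]
      rfl

theorem Path_box : ∀ (n : ℕ) (a : ℕ → A) (H : List A → ZMod 2),
    PathBx n a H = ∑ ε : Fin n → Bool,
      H (List.ofFn fun c : Fin n => a ((c : ℕ) + if ε c then 1 else 0)) := by
  intro n
  induction n with
  | zero =>
    intro a H
    simp [PathBx]
  | succ n ih =>
    intro a H
    rw [PathBx, ih, ih]
    rw [← (Fin.consEquiv (fun _ : Fin (n + 1) => Bool)).sum_comp, Fintype.sum_prod_type,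
      Fintype.sum_bool, add_comm]
    have key : ∀ (b : Bool) (ε : Fin n → Bool),
        (List.ofFn fun c : Fin (n + 1) => a ((c : ℕ) +
          if (Fin.consEquiv (fun _ : Fin (n + 1) => Bool)) (b, ε) c then 1 else 0)) =
        a (if b then 1 else 0) ::
          List.ofFn fun c : Fin n => a ((c : ℕ) + (if ε c then 1 else 0) + 1) := by
      intro b ε
      rw [List.ofFn_succ]
      congr 1
      · simp [Fin.consEquiv]
      · congr 1
        funext c
        simp only [Fin.consEquiv, Equiv.coe_fn_mk, Fin.cons_succ, Fin.val_succ]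
        congr 1
        ring
    congr 1
    · refine Finset.sum_congr rfl fun ε _ => ?_
      rw [key true ε]
      simp
    · refine Finset.sum_congr rfl fun ε _ => ?_
      rw [key false ε]
      simp

end

theorem Path_pA_swap {k M : ℕ} (w : Fin (M + 1) → Fin k) (i : ℕ) (hi : i + 1 < M + 1) (j : ℕ)
    (hj : j ≠ i + 1) :
    pA (fun c => w (Equiv.swap (⟨i, by omega⟩ : Fin (M + 1)) ⟨i + 1, hi⟩ c)) j = pA w j := by
  unfold pA
  set σ := Equiv.swap (⟨i, by omega⟩ : Fin (M + 1)) ⟨i + 1, hi⟩ with hσ
  rw [← Equiv.sum_comp σ (fun c : Fin (M + 1) =>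
    if (c : ℕ) < j then (Pi.single (w c) 1 : G k) else 0)]
  refine Finset.sum_congr rfl fun c _ => ?_
  have h : ((σ c : Fin (M + 1)) : ℕ) < j ↔ (c : ℕ) < j := by
    rcases eq_or_ne c ⟨i, by omega⟩ with h1 | h1
    · rw [h1, hσ, Equiv.swap_apply_left]
      simp only
      omega
    · rcases eq_or_ne c ⟨i + 1, hi⟩ with h2 | h2
      · rw [h2, hσ, Equiv.swap_apply_right]
        simp only
        omega
      · rw [hσ, Equiv.swap_apply_of_ne_of_ne h1 h2]
  by_cases hc : (c : ℕ) < j
  · rw [if_pos hc, if_pos (h.2 hc)]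
  · rw [if_neg hc, if_neg (fun h' => hc (h.1 h'))]

theorem Path_pA_succ {k M : ℕ} (w : Fin (M + 1) → Fin k) (i : ℕ) (hi : i < M + 1) :
    pA w (i + 1) = pA w i + Pi.single (w ⟨i, hi⟩) 1 := by
  unfold pA
  have h : ∀ c : Fin (M + 1), (if (c : ℕ) < i + 1 then (Pi.single (w c) 1 : G k) else 0) =
      (if (c : ℕ) < i then (Pi.single (w c) 1 : G k) else 0) +
      if c = ⟨i, hi⟩ then (Pi.single (w c) 1 : G k) else 0 := by
    intro c
    by_cases h1 : (c : ℕ) < i
    · rw [if_pos (by omega), if_pos h1, if_neg (by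
        intro h
        rw [h] at h1
        simp at h1), add_zero]
    · by_cases h2 : (c : ℕ) = i
      · have h3 : c = ⟨i, hi⟩ := Fin.ext h2
        rw [if_pos (by omega), if_neg h1, if_pos h3, zero_add]
      · have h3 : c ≠ ⟨i, hi⟩ := fun h => h2 (by rw [h])
        rw [if_neg (by omega), if_neg h1, if_neg h3, add_zero]
  rw [Finset.sum_congr rfl fun c _ => h c, Finset.sum_add_distrib,
    Finset.sum_ite_eq' Finset.univ (⟨i, hi⟩ : Fin (M + 1)), if_pos (Finset.mem_univ _)]

theorem Path_pA_rot {k M : ℕ} (w : Fin (M + 1) → Fin k) (j : ℕ) (hj : j < M + 1) :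
    pA w (j + 1) = pA (fun c => w (finRotate (M + 1) c)) j + Pi.single (w 0) 1 := by
  unfold pA
  rw [Fin.sum_univ_succ, Fin.sum_univ_castSucc (n := M)
    (f := fun c => if (c : ℕ) < j then (Pi.single (w (finRotate (M + 1) c)) 1 : G k) else 0)]
  have h1 : (if ((0 : Fin (M + 1)) : ℕ) < j + 1 then (Pi.single (w 0) 1 : G k) else 0) =
      Pi.single (w 0) 1 := by
    rw [if_pos]
    simp
  have h2 : (if ((Fin.last M : Fin (M + 1)) : ℕ) < j then
      (Pi.single (w (finRotate (M + 1) (Fin.last M))) 1 : G k) else 0) = 0 := by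
    rw [if_neg]
    simp only [Fin.val_last]
    omega
  rw [h1, h2, add_zero, add_comm]
  congr 1
  refine Finset.sum_congr rfl fun c _ => ?_
  have h3 : finRotate (M + 1) (Fin.castSucc c) = Fin.succ c := by
    rw [finRotate_apply, Fin.coeSucc_eq_succ]
  rw [h3]
  simp only [Fin.val_succ, Fin.val_castSucc, add_lt_add_iff_right]

/-- the function on lists -/
noncomputable def PathH {k M : ℕ} (H : (Fin (M + 1) → G k) → ZMod 2) (t : List (G k)) : ZMod 2 :=
  if h : t.length = M + 1 then H (fun c => t.get (c.cast h.symm)) else 0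

theorem PathH_ofFn {k M : ℕ} (H : (Fin (M + 1) → G k) → ZMod 2) (f : Fin (M + 1) → G k) :
    PathH H (List.ofFn f) = H f := by
  unfold PathH
  rw [dif_pos (List.length_ofFn (f := f))]
  congr 1
  funext c
  simp [-List.ofFn_succ]

theorem PathH_map {k M : ℕ} (H : (Fin (M + 1) → G k) → ZMod 2)
    (hH : ∀ f g, H (fun c => f c + g) = H f) (g : G k) (t : List (G k)) :
    PathH H (t.map (fun x => x + g)) = PathH H t := by
  unfold PathH
  by_cases h : t.length = M + 1
  · have h' : (t.map (fun x => x + g)).length = M + 1 := by rw [List.length_map, h]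
    rw [dif_pos h, dif_pos h', ← hH (fun c => t.get (c.cast h.symm)) g]
    congr 1
    funext c
    simp
  · have h' : ¬ (t.map (fun x => x + g)).length = M + 1 := by rwa [List.length_map]
    rw [dif_neg h, dif_neg h']

theorem tPath : Stmt_Path := by
  intro k M W hW H hH
  have h1 : ∀ w : Fin (M + 1) → Fin k, ∑ ε : Fin (M + 1) → Bool, H (pt w ε) =
      ∑ i ∈ Finset.range (M + 1 + 1), PathPh (M + 1) (fun j => pA w (PathSk i j)) (PathH H) := by
    intro w
    rw [← Path_face, Path_box]
    refine Finset.sum_congr rfl fun ε _ => ?_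
    rw [PathH_ofFn]
    rfl
  rw [Finset.sum_congr rfl fun w _ => h1 w, Finset.sum_comm, Finset.sum_range_succ,
    Finset.sum_range_succ']
  have hmid : ∀ i ∈ Finset.range M,
      ∑ w ∈ W, PathPh (M + 1) (fun j => pA w (PathSk (i + 1) j)) (PathH H) = 0 := by
    intro i hi
    rw [Finset.mem_range] at hi
    have hi1 : i + 1 < M + 1 := by omega
    have hinv : ∀ w : Fin (M + 1) → Fin k,
        PathPh (M + 1) (fun j => pA (fun c => w (Equiv.swap (⟨i, by omega⟩ : Fin (M + 1))
          ⟨i + 1, hi1⟩ c)) (PathSk (i + 1) j)) (PathH H) =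
        PathPh (M + 1) (fun j => pA w (PathSk (i + 1) j)) (PathH H) := by
      intro w
      apply Path_congr
      intro j _
      apply Path_pA_swap
      unfold PathSk
      split_ifs <;> omega
    refine Finset.sum_involution
      (fun w _ => fun c => w (Equiv.swap (⟨i, by omega⟩ : Fin (M + 1)) ⟨i + 1, hi1⟩ c))
      ?_ ?_ (fun w hw => hW w hw _) ?_
    · intro w _
      rw [hinv w]
      exact Path_two _
    · intro w _ hne heq
      apply hne
      have h2 := congrFun heq ⟨i, by omega⟩
      simp only [Equiv.swap_apply_left] at h2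
      apply Path_rep i (M + 1) _ _ hi1
      have e1 : PathSk (i + 1) i = i := by rw [PathSk, if_pos (by omega)]
      have e2 : PathSk (i + 1) (i + 1) = i + 1 + 1 := by rw [PathSk, if_neg (by omega)]
      rw [e1, e2, Path_pA_succ w (i + 1) hi1, Path_pA_succ w i (by omega), h2, add_assoc]
      have h3 : (Pi.single (w ⟨i, by omega⟩) 1 : G k) + Pi.single (w ⟨i, by omega⟩) 1 = 0 := by
        funext l
        exact Path_two _
      rw [h3, add_zero]
    · intro w _
      funext c
      show w (Equiv.swap _ _ (Equiv.swap _ _ c)) = w c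
      rw [Equiv.swap_apply_self]
  rw [Finset.sum_eq_zero hmid, zero_add]
  have h0 : ∀ w : Fin (M + 1) → Fin k,
      PathPh (M + 1) (fun j => pA w (PathSk 0 j)) (PathH H) =
      PathPh (M + 1) (pA (fun c => w (finRotate (M + 1) c))) (PathH H) := by
    intro w
    rw [Path_congr (M + 1) (fun j => pA w (PathSk 0 j))
      (fun j => pA (fun c => w (finRotate (M + 1) c)) j + Pi.single (w 0) 1) _ (by
        intro j hj
        rw [PathSk, if_neg (by omega)]
        exact Path_pA_rot w j hj)]
    refine (Path_map (fun x : G k => x + Pi.single (w 0) 1) (M + 1)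
        (pA (fun c => w (finRotate (M + 1) c))) (PathH H)).trans ?_
    congr 1
    funext t
    exact PathH_map H hH _ t
  have hN : ∀ w : Fin (M + 1) → Fin k,
      PathPh (M + 1) (fun j => pA w (PathSk (M + 1) j)) (PathH H) =
      PathPh (M + 1) (pA w) (PathH H) := by
    intro w
    apply Path_congr
    intro j hj
    rw [PathSk, if_pos hj]
  rw [Finset.sum_congr rfl fun w _ => h0 w, Finset.sum_congr rfl fun w _ => hN w]
  have hrot : ∑ w ∈ W, PathPh (M + 1) (pA (fun c => w (finRotate (M + 1) c))) (PathH H) =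
      ∑ w ∈ W, PathPh (M + 1) (pA w) (PathH H) := by
    refine Finset.sum_bij (fun w _ => fun c => w (finRotate (M + 1) c)) (fun w hw => hW w hw _)
      ?_ ?_ (fun w _ => rfl)
    · intro w _ w' _ h
      funext c
      have := congrFun h ((finRotate (M + 1)).symm c)
      simpa using this
    · intro w hw
      refine ⟨fun c => w ((finRotate (M + 1)).symm c), hW w hw _, ?_⟩
      funext c
      simp
  rw [hrot]
  exact Path_two _

end Pool.Agent.Tvb
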