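import Pool.Agent.Tvb.Stmts

/-!
# Parity of the number of ends of an interval (MP_001fdd_co, module Real)
-/

set_option autoImplicit false

namespace Pool.Agent.Tvb

open scoped Classical

theorem Real_ind_true {p : Prop} (h : p) : ind p = 1 := if_pos h

theorem Real_ind_false {p : Prop} (h : ¬ p) : ind p = 0 := if_neg h

theorem Real_ind_congr {p q : Prop} (h : p ↔ q) : ind p = ind q := by rw [propext h]

theorem Real_two : (1 : ZMod 2) + 1 = 0 := by decide

theorem Real_self (x : ZMod 2) : x + x = 0 := CharTwo.add_self_eq_zero x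

/-- the case where all `α l` are negative -/
theorem Real_neg {ι : Type} [Fintype ι] (α τ : ι → ℝ) (hτ : ∀ i, τ i ≠ 0)
    (hinj : Function.Injective τ) (hα : ∀ l, α l < 0) :
    ind (∀ l, 0 < α l * τ l) + ∑ i, ind (0 < τ i ∧ ∀ l, l ≠ i → 0 < α l * (τ l - τ i)) = 1 := by
  rcases isEmpty_or_nonempty ι with he | hne
  · rw [Real_ind_true (fun l => he.elim l), Finset.univ_eq_empty, Finset.sum_empty, add_zero]
  · obtain ⟨i0, -, hi0⟩ := Finset.exists_max_image (Finset.univ : Finset ι) τ
      Finset.univ_nonempty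
    have hmax : ∀ l, l ≠ i0 → τ l < τ i0 := fun l hl =>
      lt_of_le_of_ne (hi0 l (Finset.mem_univ l)) (hinj.ne hl)
    have h1 : (∀ l, 0 < α l * τ l) ↔ τ i0 < 0 := by
      constructor
      · intro h
        exact neg_of_mul_pos_right (h i0) (hα i0).le
      · intro h l
        exact mul_pos_of_neg_of_neg (hα l) (lt_of_le_of_lt (hi0 l (Finset.mem_univ l)) h)
    have h2 : ∑ i, ind (0 < τ i ∧ ∀ l, l ≠ i → 0 < α l * (τ l - τ i)) = ind (0 < τ i0) := by
      rw [Finset.sum_eq_single i0]
      · refine Real_ind_congr ⟨fun h => h.1, fun h => ⟨h, fun l hl => ?_⟩⟩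
        exact mul_pos_of_neg_of_neg (hα l) (sub_neg.mpr (hmax l hl))
      · intro b _ hb
        apply Real_ind_false
        rintro ⟨-, h⟩
        have h3 := h i0 (Ne.symm hb)
        have h4 : τ i0 - τ b < 0 := neg_of_mul_pos_right h3 (hα i0).le
        linarith [hmax b hb]
      · intro h
        exact absurd (Finset.mem_univ i0) h
    rw [Real_ind_congr h1, h2]
    rcases lt_or_gt_of_ne (hτ i0) with h | h
    · rw [Real_ind_true h, Real_ind_false (not_lt.mpr h.le), add_zero]
    · rw [Real_ind_false (not_lt.mpr h.le), Real_ind_true h, zero_add]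

/-- the case where some `α l` is positive -/
theorem Real_pos {ι : Type} [Fintype ι] (α τ : ι → ℝ) (hα : ∀ i, α i ≠ 0) (hτ : ∀ i, τ i ≠ 0)
    (hinj : Function.Injective τ) (hP : ∃ l, 0 < α l) :
    ind (∀ l, 0 < α l * τ l) + ∑ i, ind (0 < τ i ∧ ∀ l, l ≠ i → 0 < α l * (τ l - τ i)) = 0 := by
  obtain ⟨l0, hl0⟩ := hP
  obtain ⟨p, hp, hpmin⟩ := Finset.exists_min_image (Finset.univ.filter fun l => 0 < α l) τ
    ⟨l0, Finset.mem_filter.mpr ⟨Finset.mem_univ _, hl0⟩⟩
  rw [Finset.mem_filter] at hp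
  have hpP : 0 < α p := hp.2
  have hmin : ∀ l, 0 < α l → τ p ≤ τ l := fun l hl =>
    hpmin l (Finset.mem_filter.mpr ⟨Finset.mem_univ _, hl⟩)
  have hmin' : ∀ l, 0 < α l → l ≠ p → τ p < τ l := fun l hl hlp =>
    lt_of_le_of_ne (hmin l hl) (hinj.ne hlp.symm)
  -- the term of an index of `P`
  have hP1 : ∀ i, 0 < α i → i ≠ p →
      ¬ (0 < τ i ∧ ∀ l, l ≠ i → 0 < α l * (τ l - τ i)) := by
    rintro i hi hip ⟨-, h⟩
    have h1 := h p (Ne.symm hip)
    have h2 : 0 < τ p - τ i := (mul_pos_iff_of_pos_left hpP).mp h1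
    linarith [hmin' i hi hip]
  rcases Finset.eq_empty_or_nonempty (Finset.univ.filter fun l => α l < 0) with hM | hM
  · have hall : ∀ l, 0 < α l := by
      intro l
      rcases lt_or_gt_of_ne (hα l) with h | h
      · have : l ∈ Finset.univ.filter fun l => α l < 0 :=
          Finset.mem_filter.mpr ⟨Finset.mem_univ _, h⟩
        rw [hM] at this
        exact absurd this (Finset.notMem_empty l)
      · exact h
    have h1 : (∀ l, 0 < α l * τ l) ↔ 0 < τ p := by
      constructor
      · intro h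
        exact (mul_pos_iff_of_pos_left hpP).mp (h p)
      · intro h l
        exact mul_pos (hall l) (lt_of_lt_of_le h (hmin l (hall l)))
    have h2 : ∑ i, ind (0 < τ i ∧ ∀ l, l ≠ i → 0 < α l * (τ l - τ i)) = ind (0 < τ p) := by
      rw [Finset.sum_eq_single p]
      · refine Real_ind_congr ⟨fun h => h.1, fun h => ⟨h, fun l hl => ?_⟩⟩
        exact mul_pos (hall l) (sub_pos.mpr (hmin' l (hall l) hl))
      · intro b _ hb
        exact Real_ind_false (hP1 b (hall b) hb)
      · intro h
        exact absurd (Finset.mem_univ p) h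
    rw [Real_ind_congr h1, h2, Real_self]
  · obtain ⟨q, hq, hqmax⟩ := Finset.exists_max_image (Finset.univ.filter fun l => α l < 0) τ hM
    rw [Finset.mem_filter] at hq
    have hqM : α q < 0 := hq.2
    have hmax : ∀ l, α l < 0 → τ l ≤ τ q := fun l hl =>
      hqmax l (Finset.mem_filter.mpr ⟨Finset.mem_univ _, hl⟩)
    have hmax' : ∀ l, α l < 0 → l ≠ q → τ l < τ q := fun l hl hlq =>
      lt_of_le_of_ne (hmax l hl) (hinj.ne hlq)
    have hpq : p ≠ q := by
      rintro rfl
      linarith
    have h1 : (∀ l, 0 < α l * τ l) ↔ 0 < τ p ∧ τ q < 0 := by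
      constructor
      · intro h
        exact ⟨(mul_pos_iff_of_pos_left hpP).mp (h p), neg_of_mul_pos_right (h q) hqM.le⟩
      · rintro ⟨h, h'⟩ l
        rcases lt_or_gt_of_ne (hα l) with hl | hl
        · exact mul_pos_of_neg_of_neg hl (lt_of_le_of_lt (hmax l hl) h')
        · exact mul_pos hl (lt_of_lt_of_le h (hmin l hl))
    have h2 : (0 < τ p ∧ ∀ l, l ≠ p → 0 < α l * (τ l - τ p)) ↔ 0 < τ p ∧ τ q < τ p := by
      constructor
      · rintro ⟨h, h'⟩
        have h3 := neg_of_mul_pos_right (h' q hpq.symm) hqM.le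
        exact ⟨h, by linarith⟩
      · rintro ⟨h, h'⟩
        refine ⟨h, fun l hl => ?_⟩
        rcases lt_or_gt_of_ne (hα l) with hl' | hl'
        · exact mul_pos_of_neg_of_neg hl' (by linarith [hmax l hl'])
        · exact mul_pos hl' (sub_pos.mpr (hmin' l hl' hl))
    have h3 : (0 < τ q ∧ ∀ l, l ≠ q → 0 < α l * (τ l - τ q)) ↔ 0 < τ q ∧ τ q < τ p := by
      constructor
      · rintro ⟨h, h'⟩
        have h3 := (mul_pos_iff_of_pos_left hpP).mp (h' p hpq)
        exact ⟨h, by linarith⟩
      · rintro ⟨h, h'⟩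
        refine ⟨h, fun l hl => ?_⟩
        rcases lt_or_gt_of_ne (hα l) with hl' | hl'
        · exact mul_pos_of_neg_of_neg hl' (sub_neg.mpr (hmax' l hl' hl))
        · exact mul_pos hl' (by linarith [hmin l hl'])
    have h4 : ∑ i, ind (0 < τ i ∧ ∀ l, l ≠ i → 0 < α l * (τ l - τ i)) =
        ind (0 < τ p ∧ τ q < τ p) + ind (0 < τ q ∧ τ q < τ p) := by
      rw [Finset.sum_eq_add p q hpq, Real_ind_congr h2, Real_ind_congr h3]
      · rintro i - ⟨hip, hiq⟩
        rcases lt_or_gt_of_ne (hα i) with hi | hi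
        · apply Real_ind_false
          rintro ⟨-, h⟩
          have h5 := neg_of_mul_pos_right (h q (Ne.symm hiq)) hqM.le
          linarith [hmax' i hi hiq]
        · exact Real_ind_false (hP1 i hi hip)
      · intro h
        exact absurd (Finset.mem_univ p) h
      · intro h
        exact absurd (Finset.mem_univ q) h
    rw [h4, Real_ind_congr h1]
    rcases lt_or_ge (τ q) (τ p) with hqp | hqp
    · rcases lt_or_gt_of_ne (hτ q) with hq0 | hq0
      · rcases lt_or_gt_of_ne (hτ p) with hp0 | hp0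
        · rw [Real_ind_false (fun h => absurd h.1 (not_lt.mpr hp0.le)),
            Real_ind_false (fun h => absurd h.1 (not_lt.mpr hp0.le)),
            Real_ind_false (fun h => absurd h.1 (not_lt.mpr hq0.le)), add_zero, add_zero]
        · rw [Real_ind_true ⟨hp0, hq0⟩, Real_ind_true ⟨hp0, hqp⟩,
            Real_ind_false (fun h => absurd h.1 (not_lt.mpr hq0.le)), add_zero, Real_two]
      · have hp0 : 0 < τ p := hq0.trans hqp
        rw [Real_ind_false (fun h => absurd h.2 (not_lt.mpr hq0.le)), Real_ind_true ⟨hp0, hqp⟩,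
          Real_ind_true ⟨hq0, hqp⟩, zero_add, Real_two]
    · rw [Real_ind_false (fun h => absurd (h.2.trans h.1) (not_lt.mpr hqp)),
        Real_ind_false (fun h => absurd h.2 (not_lt.mpr hqp)),
        Real_ind_false (fun h => absurd h.2 (not_lt.mpr hqp)), add_zero, add_zero]

theorem tReal : Stmt_Real := by
  intro ι _ α τ hα hτ hinj
  by_cases h : ∀ l, α l < 0
  · rw [Real_ind_true h]
    exact Real_neg α τ hτ hinj h
  · rw [Real_ind_false h]
    apply Real_pos α τ hα hτ hinj
    rw [not_forall] at h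
    obtain ⟨l, hl⟩ := h
    exact ⟨l, lt_of_le_of_ne (not_lt.mp hl) (hα l).symm⟩

end Pool.Agent.Tvb
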