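import Pool.Agent.Tvb.Stmts

/-!
# Module Step: the degree does not change if one vector is changed (MP_001fdd_co)
-/

set_option autoImplicit false

namespace Pool.Agent.Tvb

open scoped Classical

theorem Step_dt_add {k : ℕ} (χ a b : G k) : dt χ (a + b) = dt χ a + dt χ b := by
  unfold dt
  rw [← Finset.sum_add_distrib]
  apply Finset.sum_congr rfl
  intro j _
  rw [Pi.add_apply, mul_add]

theorem Step_sg_add {k : ℕ} (χ a b : G k) : sg χ (a + b) = sg χ a * sg χ b := by
  unfold sg
  rw [Step_dt_add]
  generalize dt χ a = p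
  generalize dt χ b = q
  have h : ∀ p q : ZMod 2, (p = 0 ∧ q = 0 ∧ p + q = 0) ∨ (p = 0 ∧ q ≠ 0 ∧ p + q ≠ 0) ∨
      (p ≠ 0 ∧ q = 0 ∧ p + q ≠ 0) ∨ (p ≠ 0 ∧ q ≠ 0 ∧ p + q = 0) := by decide
  rcases h p q with ⟨h1, h2, h3⟩ | ⟨h1, h2, h3⟩ | ⟨h1, h2, h3⟩ | ⟨h1, h2, h3⟩
  · rw [if_pos h1, if_pos h2, if_pos h3]; norm_num
  · rw [if_pos h1, if_neg h2, if_neg h3]; norm_num
  · rw [if_neg h1, if_pos h2, if_neg h3]; norm_num
  · rw [if_neg h1, if_neg h2, if_pos h3]; norm_num

theorem Step_sg_ne {k : ℕ} (χ a : G k) : sg χ a ≠ 0 := by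
  unfold sg
  split_ifs <;> norm_num

theorem Step_rho_add {k N : ℕ} (χ : Fin N → G k) (a g : G k) (v : Fin N → ℝ) :
    rho χ (a + g) v = rho χ g (rho χ a v) := by
  funext c
  unfold rho
  rw [Step_sg_add]
  ring

theorem Step_Zero_inv {k N : ℕ} {ι : Type} [Fintype ι] (χ : Fin N → G k) (g : G k)
    (x : ι → Fin N → ℝ) (v : Fin N → ℝ) :
    Zero (fun c => rho χ g (x c)) (rho χ g v) ↔ Zero x v := by
  unfold Zero
  have key : ∀ (b : ℝ) (c : ι → ℝ), b • rho χ g v + ∑ i, c i • rho χ g (x i) = 0 ↔
      b • v + ∑ i, c i • x i = 0 := by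
    intro b c
    rw [funext_iff, funext_iff]
    apply forall_congr'
    intro j
    simp only [Pi.add_apply, Pi.smul_apply, Finset.sum_apply, Pi.zero_apply, smul_eq_mul, rho]
    have h : b * (sg (χ j) g * v j) + ∑ i, c i * (sg (χ j) g * x i j) =
        sg (χ j) g * (b * v j + ∑ i, c i * x i j) := by
      rw [mul_add, Finset.mul_sum]
      congr 1
      · ring
      · apply Finset.sum_congr rfl
        intro i _
        ring
    rw [h, mul_eq_zero]
    constructor
    · rintro (h1 | h1)
      · exact absurd h1 (Step_sg_ne _ _)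
      · exact h1
    · exact Or.inr
  simp only [key]

theorem Step_cancel {N : ℕ} (c : Fin N) (F : (Fin N → Bool) → ZMod 2)
    (hF : ∀ ε, F (Function.update ε c (!ε c)) = F ε) : ∑ ε, F ε = 0 := by
  apply Finset.sum_involution (fun ε _ => Function.update ε c (!ε c))
  · intro ε _
    rw [hF]
    exact CharTwo.add_self_eq_zero _
  · intro ε _ _ h
    have h1 := congrFun h c
    simp at h1
  · intro ε _
    simp
  · intro ε _
    simp

theorem Step_pt {k N : ℕ} (w : Fin N → Fin k) (ε : Fin N → Bool) (c c' : Fin N) (b : Bool)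
    (h : c' ≠ c) : pt w (Function.update ε c b) c' = pt w ε c' := by
  unfold pt
  rw [Function.update_of_ne h]

theorem tStep (hP : Stmt_Path) (hV : Stmt_Vec) : Stmt_Step := by
  intro k M χ W hW ω u v i hG
  have hvec : ∀ w ∈ W, ∀ ε : Fin (M + 1) → Bool,
      ind (Pos ω (fun c => rho χ (pt w ε c) (u c))) +
        ∑ c, ind (Pos ω (Function.update (fun c => rho χ (pt w ε c) (u c)) c
          (rho χ (pt w ε i) v))) =
      ind (Zero (fun c => rho χ (pt w ε c) (u c)) (rho χ (pt w ε i) v)) :=
    fun w _ ε => by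
      have h := (hV _ _ ω _ _ (hG (pt w ε))).1
      rw [Subsingleton.elim (fun a b : Fin (M + 1) => Classical.propDecidable (a = b)) (instDecidableEqFin (M + 1))] at h
      exact h
  have hsum : ∑ w ∈ W, ∑ ε : Fin (M + 1) → Bool,
      (ind (Pos ω (fun c => rho χ (pt w ε c) (u c))) +
        ∑ c, ind (Pos ω (Function.update (fun c => rho χ (pt w ε c) (u c)) c
          (rho χ (pt w ε i) v)))) =
      ∑ w ∈ W, ∑ ε : Fin (M + 1) → Bool,
        ind (Zero (fun c => rho χ (pt w ε c) (u c)) (rho χ (pt w ε i) v)) :=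
    Finset.sum_congr rfl (fun w hw => Finset.sum_congr rfl (fun ε _ => hvec w hw ε))
  -- the right side is zero
  have hR := hP k M W hW
    (fun f => ind (Zero (fun c => rho χ (f c) (u c)) (rho χ (f i) v))) (by
      intro f g
      simp only
      congr 1
      simp only [Step_rho_add]
      exact propext (Step_Zero_inv χ g (fun c => rho χ (f c) (u c)) (rho χ (f i) v)))
  rw [hR] at hsum
  -- the terms of the left side
  have hterm : ∀ w ∈ W, ∑ ε : Fin (M + 1) → Bool,
      (ind (Pos ω (fun c => rho χ (pt w ε c) (u c))) +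
        ∑ c, ind (Pos ω (Function.update (fun c => rho χ (pt w ε c) (u c)) c
          (rho χ (pt w ε i) v)))) =
      (∑ ε : Fin (M + 1) → Bool, ind (Pos ω (fun c => rho χ (pt w ε c) (u c)))) +
      ∑ ε : Fin (M + 1) → Bool,
        ind (Pos ω (fun c => rho χ (pt w ε c) (Function.update u i v c))) := by
    intro w _
    rw [Finset.sum_add_distrib]
    congr 1
    rw [Finset.sum_comm]
    rw [← Finset.add_sum_erase Finset.univ _ (Finset.mem_univ i)]
    have h1 : ∑ c ∈ Finset.univ.erase i, ∑ ε : Fin (M + 1) → Bool,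
        ind (Pos ω (Function.update (fun c => rho χ (pt w ε c) (u c)) c
          (rho χ (pt w ε i) v))) = 0 := by
      apply Finset.sum_eq_zero
      intro c hc
      have hci : c ≠ i := (Finset.mem_erase.mp hc).1
      apply Step_cancel c
      intro ε
      congr 2
      rw [Step_pt w ε c i _ hci.symm]
      funext c'
      by_cases h : c' = c
      · subst h
        rw [Function.update_self, Function.update_self]
      · rw [Function.update_of_ne h, Function.update_of_ne h, Step_pt w ε c c' _ h]
    rw [h1, add_zero]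
    apply Finset.sum_congr rfl
    intro ε _
    congr 2
    funext c'
    by_cases h : c' = i
    · subst h
      rw [Function.update_self, Function.update_self]
    · rw [Function.update_of_ne h, Function.update_of_ne h]
  rw [Finset.sum_congr rfl hterm, Finset.sum_add_distrib] at hsum
  unfold Th
  have h2 := eq_neg_of_add_eq_zero_right hsum
  rw [h2]
  exact CharTwo.neg_eq _

end Pool.Agent.Tvb
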