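import Pool.Agent.Tvb.Stmts

/-!
# Module Vec: the parity lemma for vectors
-/

set_option autoImplicit false

namespace Pool.Agent.Tvb

open scoped Classical

section

variable {ι V : Type} [Fintype ι] [AddCommGroup V] [Module ℝ V]

theorem vec_uniq {x : ι → V} (hx : LinearIndependent ℝ x) {a b : ι → ℝ}
    (h : ∑ i, a i • x i = ∑ i, b i • x i) (i : ι) : a i = b i := by
  have h0 : ∑ i, (a i - b i) • x i = 0 := by
    simp only [sub_smul, Finset.sum_sub_distrib, h, sub_self]
  have := Fintype.linearIndependent_iff.mp hx _ h0 i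
  linarith

theorem vec_sum {x : ι → V} {v : V} {α : ι → ℝ} (hv : v = ∑ i, α i • x i) (c : ι → ℝ) (i : ι) :
    ∑ j, c j • Function.update x i v j = ∑ j, (c i * α j + if j = i then 0 else c j) • x j := by
  have h1 : ∀ j, c j • Function.update x i v j =
      (if j = i then c i • v else 0) + (if j = i then (0 : ℝ) else c j) • x j := by
    intro j
    by_cases h : j = i
    · subst h
      simp
    · simp [h]
  rw [Finset.sum_congr rfl fun j _ => h1 j, Finset.sum_add_distrib]
  simp only [add_smul, Finset.sum_add_distrib, Finset.sum_ite_eq', Finset.mem_univ, if_true]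
  congr 1
  rw [hv, Finset.smul_sum]
  simp only [mul_smul]

theorem vec_ind {p q : Prop} (h : p ↔ q) : ind p = ind q := by
  unfold ind
  by_cases hp : p
  · rw [if_pos hp, if_pos (h.mp hp)]
  · rw [if_neg hp, if_neg (fun hq => hp (h.mpr hq))]

end

theorem tVec (hR : Stmt_Real) : Stmt_Vec := by
  intro ι V _ _ _ ω v x hgood
  obtain ⟨hx, α, τ, hv, hω, hα, hτ, hinj⟩ := hgood
  have key : ∀ (c : ι → ℝ) (i : ι), ∑ j, c j • Function.update x i v j = ω ↔
      c i = τ i ∧ ∀ l, l ≠ i → c l = α l * (τ l - τ i) := by
    intro c i
    rw [vec_sum hv c i, hω]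
    constructor
    · intro h
      have h1 := vec_uniq hx h
      have h2 : c i = τ i := by
        have := h1 i
        simp only [if_true, add_zero] at this
        rw [mul_comm] at this
        exact mul_left_cancel₀ (hα i) this
      refine ⟨h2, fun l hl => ?_⟩
      have := h1 l
      rw [if_neg hl, h2] at this
      linarith
    · rintro ⟨h1, h2⟩
      refine Finset.sum_congr rfl fun j _ => ?_
      congr 1
      by_cases hj : j = i
      · subst hj
        rw [if_pos rfl, h1]
        ring
      · rw [if_neg hj, h1, h2 j hj]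
        ring
  have hpos : Pos ω x ↔ ∀ l, 0 < α l * τ l := by
    constructor
    · rintro ⟨c, hc, hsum⟩ l
      have := vec_uniq hx (hsum.trans hω) l
      rw [← this]
      exact hc l
    · intro h
      exact ⟨fun l => α l * τ l, h, hω.symm⟩
  have hpos' : ∀ i, Pos ω (Function.update x i v) ↔
      (0 < τ i ∧ ∀ l, l ≠ i → 0 < α l * (τ l - τ i)) := by
    intro i
    constructor
    · rintro ⟨c, hc, hsum⟩
      obtain ⟨h1, h2⟩ := (key c i).mp hsum
      exact ⟨h1 ▸ hc i, fun l hl => h2 l hl ▸ hc l⟩
    · rintro ⟨h1, h2⟩
      refine ⟨fun l => if l = i then τ i else α l * (τ l - τ i), fun l => ?_, ?_⟩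
      · by_cases hl : l = i
        · simpa [hl] using h1
        · simpa [hl] using h2 l hl
      · rw [key]
        refine ⟨by simp, fun l hl => by simp [hl]⟩
  have hzero : Zero x v ↔ ∀ l, α l < 0 := by
    constructor
    · rintro ⟨b, c, hb, hc, hsum⟩ l
      have h1 : ∑ j, (b * α j + c j) • x j = ∑ j, (0 : ℝ) • x j := by
        simp only [add_smul, Finset.sum_add_distrib, mul_smul, zero_smul, Finset.sum_const_zero]
        rw [← Finset.smul_sum, ← hv, hsum]
      have h2 := vec_uniq hx h1 l
      have h3 := hc l
      by_contra h4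
      push_neg at h4
      have : 0 ≤ b * α l := mul_nonneg hb.le h4
      linarith
    · intro h
      refine ⟨1, fun l => -α l, one_pos, fun l => by have := h l; linarith, ?_⟩
      rw [one_smul]
      nth_rewrite 1 [hv]
      rw [← Finset.sum_add_distrib]
      refine Finset.sum_eq_zero fun j _ => ?_
      rw [← add_smul, add_neg_cancel, zero_smul]
  refine ⟨?_, fun i => ⟨?_, ?_⟩⟩
  · rw [vec_ind hpos, vec_ind hzero, Finset.sum_congr rfl fun i _ => vec_ind (hpos' i)]
    exact hR ι α τ hα hτ hinj
  · rw [Fintype.linearIndependent_iff]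
    intro g hg
    rw [vec_sum hv g i] at hg
    have h1 := fun j => Fintype.linearIndependent_iff.mp hx _ hg j
    have h2 : g i = 0 := by
      have := h1 i
      simp only [if_true, add_zero] at this
      rcases mul_eq_zero.mp this with h | h
      · exact h
      · exact absurd h (hα i)
    intro j
    by_cases hj : j = i
    · rw [hj, h2]
    · have := h1 j
      rw [if_neg hj, h2, zero_mul, zero_add] at this
      exact this
  · refine ⟨fun l => if l = i then τ i else α l * (τ l - τ i), ?_, fun l => ?_⟩
    · symm
      rw [key]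
      refine ⟨by simp, fun l hl => by simp [hl]⟩
    · by_cases hl : l = i
      · simpa [hl] using hτ i
      · simp only [hl, if_false]
        exact mul_ne_zero (hα l) (sub_ne_zero.mpr fun h => hl (hinj h))

end Pool.Agent.Tvb
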