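import Pool.Agent.Tvb.Stmts

/-!
# Module Wc: the number of words
-/

set_option autoImplicit false

namespace Pool.Agent.Tvb

open scoped Classical

theorem Wc_lead_zero {k : ℕ} [NeZero k] (χ : G k) (i : Fin k) (h : i < lead χ) : χ i = 0 := by
  by_contra hne
  unfold lead at h
  have hn : (Finset.univ.filter fun j => χ j ≠ 0).Nonempty := ⟨i, by simpa using hne⟩
  rw [dif_pos hn] at h
  exact absurd (Finset.min'_le _ i (by simpa using hne)) (not_le.mpr h)

theorem Wc_count {k : ℕ} [NeZero k] (j : ℕ) (hj : j < k) :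
    (Finset.univ.filter fun χ : X k => j ≤ (lead χ.1 : ℕ)).card ≤ 2 ^ (k - j) := by
  have hinj : Set.InjOn (fun χ : X k => fun i : {i : Fin k // j ≤ (i : ℕ)} => χ.1 i.1)
      ((Finset.univ.filter fun χ : X k => j ≤ (lead χ.1 : ℕ) : Finset (X k)) : Set (X k)) := by
    intro a ha b hb hab
    simp only [Finset.coe_filter, Finset.mem_univ, true_and, Set.mem_setOf_eq] at ha hb
    apply Subtype.ext
    funext i
    by_cases hi : j ≤ (i : ℕ)
    · exact congrFun hab ⟨i, hi⟩
    · push Not at hi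
      rw [Wc_lead_zero a.1 i (by rw [Fin.lt_def]; omega),
        Wc_lead_zero b.1 i (by rw [Fin.lt_def]; omega)]
  have h1 := Finset.card_le_card_of_injOn
    (t := (Finset.univ : Finset ({i : Fin k // j ≤ (i : ℕ)} → ZMod 2))) _ (by intro a _; simp) hinj
  refine h1.trans ?_
  rw [Finset.card_univ, Fintype.card_fun, ZMod.card]
  apply Nat.pow_le_pow_right (by norm_num)
  rw [Fintype.card_subtype]
  have h2 : (Finset.univ.filter fun i : Fin k => j ≤ (i : ℕ)) ⊆ Finset.Ici (⟨j, hj⟩ : Fin k) := by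
    intro i hi
    simpa [Fin.le_def] using hi
  exact (Finset.card_le_card h2).trans (by simp)

theorem Wc_geom (k : ℕ) : ∑ j ∈ Finset.range k, 2 ^ (k - j) = 2 * (2 ^ k - 1) := by
  have h1 : ∑ j ∈ Finset.range k, 2 ^ (k - j) = 2 * ∑ j ∈ Finset.range k, 2 ^ (k - 1 - j) := by
    rw [Finset.mul_sum]
    apply Finset.sum_congr rfl
    intro j hj
    rw [Finset.mem_range] at hj
    rw [← pow_succ']
    congr 1
    omega
  rw [h1, Finset.sum_range_reflect (fun j => 2 ^ j) k, Nat.geomSum_eq (le_refl 2)]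
  simp

theorem Wc_sumlead (k : ℕ) [NeZero k] : ∑ χ : X k, ((lead χ.1 : ℕ) + 1) ≤ 2 * (2 ^ k - 1) := by
  have h1 : ∀ χ : X k, (lead χ.1 : ℕ) + 1 =
      ∑ j ∈ Finset.range k, if j ≤ (lead χ.1 : ℕ) then 1 else 0 := by
    intro χ
    rw [← Finset.card_filter]
    have h2 : (Finset.range k).filter (fun j => j ≤ (lead χ.1 : ℕ)) =
        Finset.range ((lead χ.1 : ℕ) + 1) := by
      ext j
      simp only [Finset.mem_filter, Finset.mem_range]
      have := (lead χ.1).isLt
      omega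
    rw [h2, Finset.card_range]
  rw [Finset.sum_congr rfl (fun χ _ => h1 χ), Finset.sum_comm, ← Wc_geom]
  apply Finset.sum_le_sum
  intro j hj
  rw [← Finset.card_filter]
  exact Wc_count j (Finset.mem_range.mp hj)

theorem Wc_cardX (k : ℕ) : Fintype.card (X k) = 2 ^ k - 1 := by
  have h := Fintype.card_subtype_compl (fun χ : G k => χ = 0)
  simp only [Fintype.card_fun, ZMod.card, Fintype.card_fin, Fintype.card_subtype_eq] at h
  convert h using 2

theorem tWc : Stmt_Wc := by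
  intro k d N _ e
  have hN : N = (2 ^ k - 1) * (d + 1) := by
    have := Fintype.card_congr e
    rw [Fintype.card_fin, Fintype.card_prod, Fintype.card_fin, Wc_cardX] at this
    exact this
  -- the sum of the leading positions
  have hS : ∑ c : Fin N, ((lead (chi e c) : ℕ) + 1) ≤ 2 * N := by
    have h1 : ∑ c : Fin N, ((lead (chi e c) : ℕ) + 1) =
        ∑ p : X k × Fin (d + 1), ((lead p.1.1 : ℕ) + 1) :=
      Fintype.sum_equiv e _ _ (fun c => rfl)
    rw [h1, Fintype.sum_prod_type]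
    simp only [Finset.sum_const, Finset.card_univ, Fintype.card_fin, smul_eq_mul]
    rw [← Finset.mul_sum]
    have := Nat.mul_le_mul_left (d + 1) (Wc_sumlead k)
    rw [hN]
    calc (d + 1) * ∑ χ : X k, ((lead χ.1 : ℕ) + 1) ≤ (d + 1) * (2 * (2 ^ k - 1)) := this
      _ = 2 * ((2 ^ k - 1) * (d + 1)) := by ring
  -- weights
  set P : ℕ := ∏ c : Fin N, 2 ^ (k - 1 - (lead (chi e c) : ℕ)) with hP
  have hw : ∀ w ∈ Wd (chi e), ∏ c : Fin N, 2 ^ (k - 1 - (w c : ℕ)) = P := by
    intro w hw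
    simp only [Wd, Finset.mem_filter, Finset.mem_univ, true_and] at hw
    obtain ⟨σ, rfl⟩ := hw
    exact Fintype.prod_equiv σ _ _ (fun c => rfl)
  have htot : ∑ w : Fin N → Fin k, ∏ c : Fin N, 2 ^ (k - 1 - (w c : ℕ)) = (2 ^ k - 1) ^ N := by
    have h1 : ∑ w : Fin N → Fin k, ∏ c : Fin N, 2 ^ (k - 1 - (w c : ℕ)) =
        ∏ c : Fin N, ∑ j : Fin k, 2 ^ (k - 1 - (j : ℕ)) := by
      rw [Finset.prod_univ_sum]
      simp [Fintype.piFinset_univ]
    rw [h1, Finset.prod_const, Finset.card_univ, Fintype.card_fin]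
    congr 1
    rw [Fin.sum_univ_eq_sum_range (fun j => 2 ^ (k - 1 - j)) k,
      Finset.sum_range_reflect (fun j => 2 ^ j) k, Nat.geomSum_eq (le_refl 2)]
    simp
  have h1 : (Wd (chi e)).card * P ≤ 2 ^ (k * N) := by
    calc (Wd (chi e)).card * P = ∑ w ∈ Wd (chi e), ∏ c : Fin N, 2 ^ (k - 1 - (w c : ℕ)) := by
          rw [Finset.sum_congr rfl hw, Finset.sum_const, smul_eq_mul]
      _ ≤ ∑ w : Fin N → Fin k, ∏ c : Fin N, 2 ^ (k - 1 - (w c : ℕ)) :=
          Finset.sum_le_sum_of_subset (Finset.subset_univ _)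
      _ = (2 ^ k - 1) ^ N := htot
      _ ≤ (2 ^ k) ^ N := Nat.pow_le_pow_left (Nat.sub_le _ _) N
      _ = 2 ^ (k * N) := by rw [← pow_mul]
  have h2 : 2 ^ (k * N) ≤ 4 ^ N * P := by
    have h3 : P = 2 ^ ∑ c : Fin N, (k - 1 - (lead (chi e c) : ℕ)) := by
      rw [hP, Finset.prod_pow_eq_pow_sum]
    have h4 : ∑ c : Fin N, (k - 1 - (lead (chi e c) : ℕ)) +
        ∑ c : Fin N, ((lead (chi e c) : ℕ) + 1) = k * N := by
      rw [← Finset.sum_add_distrib]
      have : ∀ c : Fin N, (k - 1 - (lead (chi e c) : ℕ)) + ((lead (chi e c) : ℕ) + 1) = k := by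
        intro c
        have := (lead (chi e c)).isLt
        omega
      simp [this, mul_comm]
    rw [h3, show (4 : ℕ) = 2 ^ 2 by norm_num, ← pow_mul, ← pow_add]
    apply Nat.pow_le_pow_right (by norm_num)
    omega
  have hPpos : 0 < P := Finset.prod_pos (fun c _ => pow_pos (by norm_num) _)
  exact Nat.le_of_mul_le_mul_right (h1.trans h2) hPpos

end Pool.Agent.Tvb
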