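import Pool.Agent.Tvb.FinalA
import Pool.Agent.Tvb.Path
import Pool.Agent.Tvb.Real
import Pool.Agent.Tvb.Vec
import Pool.Agent.Tvb.Gen
import Pool.Agent.Tvb.Step
import Pool.Agent.Tvb.Fin
import Pool.Agent.Tvb.Eval
import Pool.Agent.Tvb.Ind
import Pool.Agent.Tvb.Clo
import Pool.Agent.Tvb.Cov
import Pool.Agent.Tvb.Wc
import Pool.Agent.Tvb.Four
import Pool.Agent.Tvb.Lab
import Pool.Agent.Tvb.Dbl
import Pool.Agent.Tvb.Ar

set_option autoImplicit false

namespace Pool.Agent.Tvb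

theorem mainA (k d : ℕ) (hk : 1 ≤ k)
    (S : Finset (EuclideanSpace ℝ (Fin d))) (hS : S.card = (2 ^ k - 1) * (d + 1) + 1) :
    ((2 ^ k - 1).factorial) ^ d ≤ 4 ^ ((2 ^ k - 1) * (d + 1)) * (TP (2 ^ k) S).ncard := by
  have hV : Stmt_Vec := tVec tReal
  have hS' : Stmt_Step := tStep tPath hV
  have hI : Stmt_Ind := tInd hS' hV tGen tEval
  have hC : Stmt_Cov := tCov hI tGen (tFin hV) tClo
  exact finalA hC tWc tFour tLab tDbl tAr k d hk S hS

end Pool.Agent.Tvb
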