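import Pool.Agent.Tvb.Defs

/-!
# Frozen statements (MP_001fdd_co, number of parts a power of two)
-/

set_option autoImplicit false

namespace Pool.Agent.Tvb

open scoped Classical

/-- A1: the sum of the cells of the words is zero on invariant functions. -/
def Stmt_Path : Prop := ∀ (k M : ℕ) (W : Finset (Fin (M + 1) → Fin k)),
  (∀ w ∈ W, ∀ σ : Equiv.Perm (Fin (M + 1)), (fun c => w (σ c)) ∈ W) →
  ∀ H : (Fin (M + 1) → G k) → ZMod 2, (∀ f g, H (fun c => f c + g) = H f) →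
  ∑ w ∈ W, ∑ ε : Fin (M + 1) → Bool, H (pt w ε) = 0

/-- A2: parity of the number of ends of an interval. -/
def Stmt_Real : Prop := ∀ (ι : Type) [Fintype ι] (α τ : ι → ℝ), (∀ i, α i ≠ 0) → (∀ i, τ i ≠ 0) →
  Function.Injective τ →
  ind (∀ l, 0 < α l * τ l) + ∑ i, ind (0 < τ i ∧ ∀ l, l ≠ i → 0 < α l * (τ l - τ i)) =
    ind (∀ l, α l < 0)

/-- A3: the parity lemma for vectors. -/
def Stmt_Vec : Prop := ∀ (ι V : Type) [Fintype ι] [AddCommGroup V] [Module ℝ V] (ω v : V)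
  (x : ι → V), Good ω v x →
  (ind (Pos ω x) + ∑ i, ind (Pos ω (Function.update x i v)) = ind (Zero x v)) ∧
  ∀ i, Base ω (Function.update x i v)

/-- A4: generic choice of a vector. -/
def Stmt_Gen : Prop := ∀ (k N : ℕ) (χ : Fin N → G k) (ω : Fin N → ℝ) (s : Type) [Fintype s]
  (g : s → G k) (x : s → Fin N → Fin N → ℝ), (∀ a, Base ω (x a)) →
  ∀ (T : Fin N → ℝ) (δ : ℝ), 0 < δ → ∃ v : Fin N → ℝ, ‖v - T‖ < δ ∧
    ∀ a, Good ω (rho χ (g a) v) (x a)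

/-- A5: the degree does not change if one vector is changed. -/
def Stmt_Step : Prop := ∀ (k M : ℕ) (χ : Fin (M + 1) → G k) (W : Finset (Fin (M + 1) → Fin k)),
  (∀ w ∈ W, ∀ σ : Equiv.Perm (Fin (M + 1)), (fun c => w (σ c)) ∈ W) →
  ∀ (ω : Fin (M + 1) → ℝ) (u : Fin (M + 1) → Fin (M + 1) → ℝ) (v : Fin (M + 1) → ℝ)
    (i : Fin (M + 1)),
  (∀ f : Fin (M + 1) → G k, Good ω (rho χ (f i) v) (fun c => rho χ (f c) (u c))) →
  Th χ W ω (Function.update u i v) = Th χ W ω u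

/-- A6: if the degree is one there is a zero. -/
def Stmt_Fin : Prop := ∀ (k M : ℕ) (χ : Fin (M + 1) → G k) (W : Finset (Fin (M + 1) → Fin k))
  (ω : Fin (M + 1) → ℝ) (u : Fin (M + 1) → Fin (M + 1) → ℝ) (v : Fin (M + 1) → ℝ),
  (∀ (f : Fin (M + 1) → G k) (g : G k), Good ω (rho χ g v) (fun c => rho χ (f c) (u c))) →
  Th χ W ω u = 1 →
  ∃ w ∈ W, ∃ ε : Fin (M + 1) → Bool,
    Zero (fun c => rho χ (pt w ε c) (u c)) (rho χ (pA w (M + 1)) v)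

/-- A7: the degree of the coordinate frame. -/
def Stmt_Eval : Prop := ∀ (k M : ℕ) [NeZero k] (χ : Fin (M + 1) → G k), (∀ c, χ c ≠ 0) →
  Th χ (Wd χ) (fun _ => 1) (fun c => Pi.single c 1) = 1

/-- A8: generic families near given ones have degree one. -/
def Stmt_Ind : Prop := ∀ (k M : ℕ) [NeZero k] (χ : Fin (M + 1) → G k), (∀ c, χ c ≠ 0) →
  ∀ (T : Fin (M + 1) → Fin (M + 1) → ℝ) (δ : ℝ), 0 < δ →
  ∃ u : Fin (M + 1) → Fin (M + 1) → ℝ, (∀ c, ‖u c - T c‖ < δ) ∧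
    Th χ (Wd χ) (fun _ => 1) u = 1 ∧
    ∀ f : Fin (M + 1) → G k, Base (fun _ => 1) (fun c => rho χ (f c) (u c))

/-- A9: limits of positive relations. -/
def Stmt_Clo : Prop := ∀ (ι : Type) [Fintype ι] [Nonempty ι] (N : ℕ) (y : ι → Fin N → ℝ),
  (∀ δ > 0, ∃ y' : ι → Fin N → ℝ, (∀ i, ‖y' i - y i‖ < δ) ∧
    ∃ c : ι → ℝ, (∀ i, 0 < c i) ∧ ∑ i, c i • y' i = 0) →
  ∃ c : ι → ℝ, (∀ i, 0 ≤ c i) ∧ ∑ i, c i = 1 ∧ ∑ i, c i • y i = 0

/-- A10: every family has a labelling from a word. -/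
def Stmt_Cov : Prop := ∀ (k M : ℕ) [NeZero k] (χ : Fin (M + 1) → G k), (∀ c, χ c ≠ 0) →
  ∀ (T : Option (Fin (M + 1)) → Fin (M + 1) → ℝ) (κ : Option (Fin (M + 1)) → G k),
  ∃ w ∈ Wd χ, ∃ ε : Fin (M + 1) → Bool, ∃ c : Option (Fin (M + 1)) → ℝ, (∀ i, 0 ≤ c i) ∧
    ∑ i, c i = 1 ∧ ∑ i, c i • rho χ (lab w ε i + κ i) (T i) = 0

/-- A11: number of words. -/
def Stmt_Wc : Prop := ∀ (k d N : ℕ) [NeZero k] (e : Fin N ≃ X k × Fin (d + 1)),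
  (Wd (chi e)).card ≤ 4 ^ N

/-- A12: the labellings are Tverberg labellings. -/
def Stmt_Four : Prop := ∀ (k d N : ℕ) [NeZero k] (e : Fin N ≃ X k × Fin (d + 1))
  (q : Option (Fin N) → EuclideanSpace ℝ (Fin d)), ∀ f ∈ LabT e q,
  ∃ y : EuclideanSpace ℝ (Fin d), ∀ h : G k, y ∈ convexHull ℝ (q '' {i | f i = h})

/-- A13: labellings and partitions. -/
def Stmt_Lab : Prop := ∀ (k d N : ℕ) (S : Finset (EuclideanSpace ℝ (Fin d)))
  (q : Option (Fin N) ≃ S) (A : Finset (Option (Fin N) → G k)),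
  (∀ f ∈ A, ∃ y : EuclideanSpace ℝ (Fin d), ∀ h : G k,
    y ∈ convexHull ℝ ((fun i => (q i : EuclideanSpace ℝ (Fin d))) '' {i | f i = h})) →
  A.card ≤ (2 ^ k).factorial * (TP (2 ^ k) S).ncard

/-- A14: double counting. -/
def Stmt_Dbl : Prop := ∀ (k N : ℕ) (W : Finset (Fin N → Fin k))
  (A : Finset (Option (Fin N) → G k)),
  (∀ κ : Option (Fin N) → G k, ∃ w ∈ W, ∃ ε : Fin N → Bool, (fun i => lab w ε i + κ i) ∈ A) →
  (2 ^ k) ^ (N + 1) ≤ W.card * 2 ^ N * A.card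

/-- A15: arithmetic. -/
def Stmt_Ar : Prop := ∀ (k d t : ℕ), 1 ≤ k →
  (2 ^ k) ^ ((2 ^ k - 1) * (d + 1) + 1) ≤
    8 ^ ((2 ^ k - 1) * (d + 1)) * ((2 ^ k).factorial * t) →
  ((2 ^ k - 1).factorial) ^ d ≤ 4 ^ ((2 ^ k - 1) * (d + 1)) * t

end Pool.Agent.Tvb
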